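import Pool.Agent.H3MA.Total

set_option autoImplicit false

/-!
Comparison with coefficient families indexed by strictly increasing tuples and determinants.
-/

namespace Pool.Agent.H3MA

open MvPolynomial
open scoped Classical

set_option linter.unusedSectionVars false

variable {K : Type*} [Field K] {ℓ : ℕ} [Mult K ℓ]

/-- the coefficient family indexed by tuples -/
noncomputable def Φ (p : ℕ) : Amb K ℓ →ₗ[K] ((Fin p → Fin ℓ) → MvPolynomial (Fin ℓ) K) where
  toFun c i := if StrictMono i then c (Finset.univ.image i) else 0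
  map_add' c d := by
    funext i
    simp only [Pi.add_apply]
    split_ifs <;> simp
  map_smul' t c := by
    funext i
    simp only [Pi.smul_apply, RingHom.id_apply]
    split_ifs <;> simp

theorem Φ_apply (p : ℕ) (c : Amb K ℓ) (i : Fin p → Fin ℓ) :
    Φ p c i = if StrictMono i then c (Finset.univ.image i) else 0 := rfl

theorem strictMono_removeNth {p : ℕ} {r : Fin (p + 1)} {k : Fin ℓ} {i' : Fin p → Fin ℓ}
    (h : StrictMono (r.insertNth k i' : Fin (p + 1) → Fin ℓ)) : StrictMono i' := by
  have h1 : i' = (r.insertNth k i' : Fin (p + 1) → Fin ℓ) ∘ r.succAbove := by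
    funext s
    simp
  rw [h1]
  exact h.comp (Fin.strictMono_succAbove r)

theorem notMem_of_strictMono {p : ℕ} {r : Fin (p + 1)} {k : Fin ℓ} {i' : Fin p → Fin ℓ}
    (h : StrictMono (r.insertNth k i' : Fin (p + 1) → Fin ℓ)) :
    k ∉ Finset.univ.image i' := by
  intro hk
  obtain ⟨s, _, hs⟩ := Finset.mem_image.1 hk
  have h1 : (r.insertNth k i' : Fin (p + 1) → Fin ℓ) (r.succAbove s) =
      (r.insertNth k i' : Fin (p + 1) → Fin ℓ) r := by
    simp [hs]
  exact Fin.succAbove_ne r s (h.injective h1)

theorem card_filter_of_strictMono {p : ℕ} {r : Fin (p + 1)} {k : Fin ℓ} {i' : Fin p → Fin ℓ}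
    (h : StrictMono (r.insertNth k i' : Fin (p + 1) → Fin ℓ)) :
    ((Finset.univ.image i').filter (· < k)).card = r.val := by
  have hi : Function.Injective i' := (strictMono_removeNth h).injective
  have h1 : (Finset.univ.image i').filter (· < k) =
      (Finset.univ.filter (fun s : Fin p => s.castSucc < r)).image i' := by
    ext x
    simp only [Finset.mem_filter, Finset.mem_image, Finset.mem_univ, true_and]
    have key : ∀ s : Fin p, i' s < k ↔ s.castSucc < r := by
      intro s
      rw [← Fin.succAbove_lt_iff_castSucc_lt, ← h.lt_iff_lt]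
      simp
    constructor
    · rintro ⟨⟨s, rfl⟩, hs⟩
      exact ⟨s, (key s).1 hs, rfl⟩
    · rintro ⟨s, hs, rfl⟩
      exact ⟨⟨s, rfl⟩, (key s).2 hs⟩
  rw [h1, Finset.card_image_of_injective _ hi]
  have h2 : (Finset.univ.filter (fun s : Fin p => s.castSucc < r)).card =
      (Finset.range r.val).card := by
    apply Finset.card_bij (fun s _ => s.val)
    · intro s hs
      rw [Finset.mem_filter] at hs
      rw [Finset.mem_range]
      exact hs.2
    · intro s _ t _ hst
      exact Fin.ext hst
    · intro b hb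
      rw [Finset.mem_range] at hb
      refine ⟨⟨b, by omega⟩, ?_, rfl⟩
      rw [Finset.mem_filter]
      exact ⟨Finset.mem_univ _, hb⟩
  rw [h2, Finset.card_range]

theorem exists_insert {p : ℕ} {k : Fin ℓ} {i' : Fin p → Fin ℓ} (hi : StrictMono i')
    (hk : k ∉ Finset.univ.image i') :
    ∃ r : Fin (p + 1), StrictMono (r.insertNth k i' : Fin (p + 1) → Fin ℓ) := by
  have hcard : (Finset.univ.image i').card = p := by
    rw [Finset.card_image_of_injective _ hi.injective]; simp
  have hc : (insert k (Finset.univ.image i')).card = p + 1 := by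
    rw [Finset.card_insert_of_notMem hk, hcard]
  set i'' := (insert k (Finset.univ.image i')).orderEmbOfFin hc with hi''
  have hk2 : k ∈ Set.range i'' := by
    rw [hi'', Finset.range_orderEmbOfFin]
    simp
  obtain ⟨r, hr⟩ := hk2
  refine ⟨r, ?_⟩
  have h1 : (i'' : Fin (p + 1) → Fin ℓ) ∘ r.succAbove = i' := by
    have e1 : (i'' : Fin (p + 1) → Fin ℓ) ∘ r.succAbove =
        (Finset.univ.image i').orderEmbOfFin hcard := by
      apply Finset.orderEmbOfFin_unique
      · intro x
        have h2 : i'' (r.succAbove x) ∈ insert k (Finset.univ.image i') :=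
          Finset.orderEmbOfFin_mem _ _ _
        rw [Finset.mem_insert] at h2
        rcases h2 with h2 | h2
        · exfalso
          rw [← hr] at h2
          exact Fin.succAbove_ne r x (i''.injective h2)
        · exact h2
      · exact i''.strictMono.comp (Fin.strictMono_succAbove r)
    rw [e1]
    symm
    apply Finset.orderEmbOfFin_unique
    · intro x
      exact Finset.mem_image_of_mem _ (Finset.mem_univ _)
    · exact hi
  have h3 : (r.insertNth k i' : Fin (p + 1) → Fin ℓ) = i'' := by
    funext x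
    rcases Fin.eq_self_or_eq_succAbove r x with hx | ⟨s, hs⟩
    · rw [hx, Fin.insertNth_apply_same, hr]
    · rw [hs, Fin.insertNth_apply_succAbove, ← h1]
      rfl
  rw [h3]
  exact i''.strictMono

theorem image_insertNth {p : ℕ} (r : Fin (p + 1)) (k : Fin ℓ) (i' : Fin p → Fin ℓ) :
    Finset.univ.image (r.insertNth k i' : Fin (p + 1) → Fin ℓ) =
      insert k (Finset.univ.image i') := by
  ext x
  simp only [Finset.mem_image, Finset.mem_univ, true_and, Finset.mem_insert]
  constructor
  · rintro ⟨s, rfl⟩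
    rcases Fin.eq_self_or_eq_succAbove r s with hx | ⟨t, ht⟩
    · rw [hx]; simp
    · rw [ht]; simp
  · rintro (rfl | ⟨t, rfl⟩)
    · exact ⟨r, by simp⟩
    · exact ⟨r.succAbove t, by simp⟩

/-- the alternating sum over insertion positions -/
theorem sum_insert {p : ℕ} (c : Amb K ℓ) (k : Fin ℓ) (i' : Fin p → Fin ℓ) :
    ∑ r : Fin (p + 1), (-1 : MvPolynomial (Fin ℓ) K) ^ (r : ℕ) *
      Φ (p + 1) c (r.insertNth k i' : Fin (p + 1) → Fin ℓ) =
      if StrictMono i' then ctr1 k c (Finset.univ.image i') else 0 := by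
  by_cases hi : StrictMono i'
  · rw [if_pos hi, ctr1_apply]
    by_cases hk : k ∈ Finset.univ.image i'
    · rw [if_pos hk]
      apply Finset.sum_eq_zero
      intro r _
      rw [Φ_apply, if_neg (fun h => notMem_of_strictMono h hk), mul_zero]
    · rw [if_neg hk]
      obtain ⟨r, hr⟩ := exists_insert hi hk
      rw [Finset.sum_eq_single r]
      · rw [Φ_apply, if_pos hr, image_insertNth, sg, card_filter_of_strictMono hr,
          MvPolynomial.smul_eq_C_mul]
        simp
      · intro s _ hs
        rw [Φ_apply, if_neg, mul_zero]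
        intro h
        apply hs
        apply Fin.ext
        rw [← card_filter_of_strictMono h, ← card_filter_of_strictMono hr]
      · simp
  · rw [if_neg hi]
    apply Finset.sum_eq_zero
    intro r _
    rw [Φ_apply, if_neg (fun h => hi (strictMono_removeNth h)), mul_zero]

/-- the Laplace expansion -/
theorem laplace {p : ℕ} (c : Amb K ℓ) (w : Fin (p + 1) → Fin ℓ → MvPolynomial (Fin ℓ) K)
    (j : Fin (p + 1)) (a : Fin ℓ → K) (hw : ∀ k, w j k = C (a k)) :
    ∑ i : Fin (p + 1) → Fin ℓ, Φ (p + 1) c i *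
        (Matrix.of fun r s => w s (i r)).det =
      (-1) ^ (j : ℕ) * ∑ i' : Fin p → Fin ℓ, Φ p (ctr a c) i' *
        (Matrix.of fun r s => w (j.succAbove s) (i' r)).det := by
  have h1 : ∀ i : Fin (p + 1) → Fin ℓ, Φ (p + 1) c i * (Matrix.of fun r s => w s (i r)).det =
      ∑ r : Fin (p + 1), Φ (p + 1) c i * ((-1) ^ ((r : ℕ) + (j : ℕ)) * C (a (i r)) *
        (Matrix.of fun r' s' => w (j.succAbove s') (i (r.succAbove r'))).det) := by
    intro i
    rw [Matrix.det_succ_column _ j, Finset.mul_sum]
    apply Finset.sum_congr rfl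
    intro r _
    rw [Matrix.of_apply, hw]
    rfl
  rw [Finset.sum_congr rfl (fun i _ => h1 i), Finset.sum_comm]
  have h2 : ∀ r : Fin (p + 1), ∑ i : Fin (p + 1) → Fin ℓ,
      Φ (p + 1) c i * ((-1) ^ ((r : ℕ) + (j : ℕ)) * C (a (i r)) *
        (Matrix.of fun r' s' => w (j.succAbove s') (i (r.succAbove r'))).det) =
      ∑ x : Fin ℓ × (Fin p → Fin ℓ), Φ (p + 1) c (r.insertNth x.1 x.2 : Fin (p + 1) → Fin ℓ) *
        ((-1) ^ ((r : ℕ) + (j : ℕ)) * C (a x.1) *
        (Matrix.of fun r' s' => w (j.succAbove s') (x.2 r')).det) := by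
    intro r
    rw [← (Fin.insertNthEquiv (fun _ => Fin ℓ) r).sum_comp]
    apply Finset.sum_congr rfl
    intro x _
    simp [Fin.insertNthEquiv]
  rw [Finset.sum_congr rfl (fun r _ => h2 r), Finset.sum_comm, Fintype.sum_prod_type,
    Finset.sum_comm, Finset.mul_sum]
  apply Finset.sum_congr rfl
  intro i' _
  have h3 : ∀ k : Fin ℓ, ∑ r : Fin (p + 1),
      Φ (p + 1) c (r.insertNth k i' : Fin (p + 1) → Fin ℓ) *
        ((-1) ^ ((r : ℕ) + (j : ℕ)) * C (a k) *
        (Matrix.of fun r' s' => w (j.succAbove s') (i' r')).det) =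
      ((-1) ^ (j : ℕ) * (Matrix.of fun r' s' => w (j.succAbove s') (i' r')).det) *
      (C (a k) * (if StrictMono i' then ctr1 k c (Finset.univ.image i') else 0)) := by
    intro k
    rw [← sum_insert, Finset.mul_sum, Finset.mul_sum]
    apply Finset.sum_congr rfl
    intro r _
    rw [pow_add]
    ring
  rw [Finset.sum_congr rfl (fun k _ => h3 k), ← Finset.mul_sum]
  have h4 : ∑ k, C (a k) * (if StrictMono i' then ctr1 k c (Finset.univ.image i') else 0) =
      Φ p (ctr a c) i' := by
    rw [Φ_apply]
    split_ifs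
    · rw [ctr_apply, Finset.sum_apply]
      apply Finset.sum_congr rfl
      intro k _
      rw [Pi.smul_apply, MvPolynomial.smul_eq_C_mul]
    · simp
  rw [h4]
  ring

theorem pderiv_lin (a : Fin ℓ → K) (k : Fin ℓ) : pderiv k (lin a) = C (a k) := by
  unfold lin
  rw [map_sum, Finset.sum_eq_single k]
  · rw [pderiv_C_mul, pderiv_X_self]; simp
  · intro m _ hm
    rw [pderiv_C_mul, pderiv_X_of_ne hm]; simp
  · simp

theorem cond_of_DD {A : Finset (Fin ℓ → K)} {p : ℕ} {c : Amb K ℓ} (hc : c ∈ DD A) :
    ∀ a ∈ A, ∀ f : Fin p → MvPolynomial (Fin ℓ) K, ∀ j : Fin p, f j = lin a →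
      lin a ^ mu a ∣ ∑ i : Fin p → Fin ℓ, Φ p c i *
        (Matrix.of fun r s => pderiv (i r) (f s)).det := by
  intro a ha f j hj
  rcases p with _ | p
  · exact j.elim0
  · rw [laplace c (fun s k => pderiv k (f s)) j a (fun k => by rw [hj, pderiv_lin])]
    apply Dvd.dvd.mul_left
    apply Finset.dvd_sum
    intro i' _
    apply Dvd.dvd.mul_right
    rw [Φ_apply]
    split_ifs
    · exact hc a ha _
    · exact dvd_zero _

theorem DD_of_cond {A : Finset (Fin ℓ → K)} {p j : ℕ} {c : Amb K ℓ} (hc : c ∈ GP K ℓ p j)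
    (h : ∀ a ∈ A, ∀ f : Fin p → MvPolynomial (Fin ℓ) K, ∀ j : Fin p, f j = lin a →
      lin a ^ mu a ∣ ∑ i : Fin p → Fin ℓ, Φ p c i *
        (Matrix.of fun r s => pderiv (i r) (f s)).det) : c ∈ DD A := by
  intro a ha J
  rcases p with _ | p
  · rw [ctr_GP_zero a hc]
    exact dvd_zero _
  · by_cases hJ : J.card = p
    · set i0 := J.orderEmbOfFin hJ with hi0
      have h1 := h a ha (Fin.cons (lin a) (fun s => X (i0 s))) 0 rfl
      rw [laplace c (fun s k => pderiv k
        ((Fin.cons (lin a) (fun s => X (i0 s)) : Fin (p + 1) → MvPolynomial (Fin ℓ) K) s)) 0 a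
        (fun k => by simp [pderiv_lin])] at h1
      rw [Finset.sum_eq_single (i0 : Fin p → Fin ℓ)] at h1
      · have h2 : (Matrix.of fun (r s : Fin p) => pderiv (i0 r)
            ((Fin.cons (lin a) (fun s => X (i0 s)) : Fin (p + 1) → MvPolynomial (Fin ℓ) K)
              (Fin.succAbove 0 s))) = 1 := by
          ext1 r s
          rw [Matrix.of_apply, Fin.zero_succAbove, Fin.cons_succ, pderiv_X, Matrix.one_apply,
            Pi.single_apply]
          by_cases hrs : r = s
          · rw [if_pos hrs, if_pos (by rw [hrs])]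
          · rw [if_neg hrs, if_neg (fun h => hrs (i0.injective h.symm))]
        rw [h2, Matrix.det_one, mul_one, Φ_apply, if_pos i0.strictMono] at h1
        have h3 : Finset.univ.image (i0 : Fin p → Fin ℓ) = J := by
          have := Finset.image_orderEmbOfFin_univ J hJ
          exact this
        rw [h3] at h1
        simpa using h1
      · intro i' _ hne
        rw [Φ_apply]
        split_ifs with hs
        · have h4 : ∃ r, i' r ∉ J := by
            by_contra hcon
            push Not at hcon
            exact hne (Finset.orderEmbOfFin_unique hJ hcon hs)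
          obtain ⟨r, hr⟩ := h4
          rw [Matrix.det_eq_zero_of_row_eq_zero r, mul_zero]
          intro s
          rw [Matrix.of_apply, Fin.zero_succAbove, Fin.cons_succ, pderiv_X_of_ne]
          intro h5
          apply hr
          rw [← h5]
          exact Finset.orderEmbOfFin_mem J hJ s
        · rw [zero_mul]
      · intro hcon
        exact absurd (Finset.mem_univ _) hcon
    · rw [(ctr_GP a hc).1 J hJ]
      exact dvd_zero _

/-- the set of coefficient families used in the frozen statement -/
def FS (A : Finset (Fin ℓ → K)) (p j : ℕ) : Set ((Fin p → Fin ℓ) → MvPolynomial (Fin ℓ) K) :=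
  {c | (∀ i : Fin p → Fin ℓ, ¬ StrictMono i → c i = 0) ∧
    (∀ i : Fin p → Fin ℓ, (c i).IsHomogeneous j) ∧
    ∀ a ∈ A, ∀ f : Fin p → MvPolynomial (Fin ℓ) K, ∀ j : Fin p, f j = lin a →
      lin a ^ mu a ∣ ∑ i : Fin p → Fin ℓ, c i *
        (Matrix.of fun r s => pderiv (i r) (f s)).det}

theorem FS_eq (A : Finset (Fin ℓ → K)) (p j : ℕ) :
    FS A p j = ((((DD A).restrictScalars K ⊓ GP K ℓ p j).map (Φ p) :
      Submodule K ((Fin p → Fin ℓ) → MvPolynomial (Fin ℓ) K)) :
      Set ((Fin p → Fin ℓ) → MvPolynomial (Fin ℓ) K)) := by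
  ext c'
  rw [SetLike.mem_coe, Submodule.mem_map]
  constructor
  · rintro ⟨h1, h2, h3⟩
    let c : Amb K ℓ := fun I => if h : I.card = p then c' (I.orderEmbOfFin h) else 0
    have hΦ : Φ p c = c' := by
      funext i
      rw [Φ_apply]
      split_ifs with hi
      · have hcard : (Finset.univ.image i).card = p := by
          rw [Finset.card_image_of_injective _ hi.injective]; simp
        show (if h : (Finset.univ.image i).card = p then
          c' ((Finset.univ.image i).orderEmbOfFin h) else 0) = c' i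
        rw [dif_pos hcard]
        congr 1
        symm
        apply Finset.orderEmbOfFin_unique
        · intro x
          exact Finset.mem_image_of_mem _ (Finset.mem_univ _)
        · exact hi
      · exact (h1 i hi).symm
    have hGP : c ∈ GP K ℓ p j := by
      refine ⟨fun I hI => by simp [c, hI], fun I => ?_⟩
      show (if h : I.card = p then c' (I.orderEmbOfFin h) else 0).IsHomogeneous j
      split_ifs with h
      · exact h2 _
      · exact isHomogeneous_zero _ _ _
    refine ⟨c, ⟨?_, hGP⟩, hΦ⟩
    apply DD_of_cond hGP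
    rw [hΦ]
    exact h3
  · rintro ⟨c, ⟨hc1, hc2⟩, rfl⟩
    refine ⟨fun i hi => by rw [Φ_apply, if_neg hi], fun i => ?_, cond_of_DD hc1⟩
    rw [Φ_apply]
    split_ifs
    · exact hc2.2 _
    · exact isHomogeneous_zero _ _ _

theorem finrank_FS (A : Finset (Fin ℓ → K)) (p j : ℕ) :
    Module.finrank K (Submodule.span K (FS A p j)) = pc ((DD A).restrictScalars K) p j := by
  rw [FS_eq, Submodule.span_eq]
  unfold pc
  rw [finrank_map_ker ((DD A).restrictScalars K ⊓ GP K ℓ p j) (Φ p)]
  have : (DD A).restrictScalars K ⊓ GP K ℓ p j ⊓ LinearMap.ker (Φ (K := K) (ℓ := ℓ) p) = ⊥ := by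
    rw [eq_bot_iff]
    intro c hc
    rw [Submodule.mem_inf, Submodule.mem_inf, LinearMap.mem_ker] at hc
    obtain ⟨⟨_, h2⟩, h3⟩ := hc
    rw [Submodule.mem_bot]
    funext I
    by_cases hI : I.card = p
    · have h4 := congrFun h3 (I.orderEmbOfFin hI)
      rw [Φ_apply, if_pos (I.orderEmbOfFin hI).strictMono,
        Finset.image_orderEmbOfFin_univ I hI] at h4
      exact h4
    · exact h2.1 I hI
  rw [this, finrank_bot, add_zero]

end Pool.Agent.H3MA
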