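import Pool.Agent.H3MA.Flat

set_option autoImplicit false

/-!
The concentration theorem: translation invariant logarithmic fields of high degree lie in `W A`.
-/

namespace Pool.Agent.H3MA

open MvPolynomial
open scoped Classical

set_option linter.unusedSectionVars false

variable {K : Type*} [Field K] {ℓ : ℕ} [Mult K ℓ]

/-- polynomials in the linear forms of `L` -/
noncomputable def SA (L : Submodule K (Fin ℓ → K)) : Subalgebra K (MvPolynomial (Fin ℓ) K) :=
  Algebra.adjoin K (lin '' (L : Set (Fin ℓ → K)))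

theorem lin_mem_SA {L : Submodule K (Fin ℓ → K)} {x : Fin ℓ → K} (hx : x ∈ L) :
    lin x ∈ SA L := Algebra.subset_adjoin ⟨x, hx, rfl⟩

theorem rho_mem_SA {L : Submodule K (Fin ℓ → K)} {P : (Fin ℓ → K) →ₗ[K] (Fin ℓ → K)}
    (hP : ∀ x, P x ∈ L) (g : MvPolynomial (Fin ℓ) K) : rho P g ∈ SA L := by
  induction g using MvPolynomial.induction_on with
  | C t => rw [rho_C]; exact (SA L).algebraMap_mem t
  | add p q hp hq => rw [map_add]; exact (SA L).add_mem hp hq
  | mul_X p i hp =>
    rw [map_mul, rho_X]
    exact (SA L).mul_mem hp (lin_mem_SA (hP _))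

theorem rho_eq_self {L : Submodule K (Fin ℓ → K)} {P : (Fin ℓ → K) →ₗ[K] (Fin ℓ → K)}
    (hP : ∀ x ∈ L, P x = x) {g : MvPolynomial (Fin ℓ) K} (hg : g ∈ SA L) : rho P g = g := by
  induction hg using Algebra.adjoin_induction with
  | mem x hx =>
    obtain ⟨y, hy, rfl⟩ := hx
    rw [rho_lin, hP y hy]
  | algebraMap r => exact rho_C P r
  | add x y _ _ hx hy => rw [map_add, hx, hy]
  | mul x y _ _ hx hy => rw [map_mul, hx, hy]

theorem rho_map_SA {L L' : Submodule K (Fin ℓ → K)} {P : (Fin ℓ → K) →ₗ[K] (Fin ℓ → K)}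
    (hP : ∀ x ∈ L, P x ∈ L') {g : MvPolynomial (Fin ℓ) K} (hg : g ∈ SA L) : rho P g ∈ SA L' := by
  induction hg using Algebra.adjoin_induction with
  | mem x hx =>
    obtain ⟨y, hy, rfl⟩ := hx
    rw [rho_lin]
    exact lin_mem_SA (hP y hy)
  | algebraMap r => rw [AlgHom.commutes]; exact (SA L').algebraMap_mem r
  | add x y _ _ hx hy => rw [map_add]; exact (SA L').add_mem hx hy
  | mul x y _ _ hx hy => rw [map_mul]; exact (SA L').mul_mem hx hy

theorem eq_zero_of_SA_bot {g : MvPolynomial (Fin ℓ) K} (hg : g ∈ SA (⊥ : Submodule K (Fin ℓ → K)))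
    {j : ℕ} (hj : 0 < j) (hh : g.IsHomogeneous j) : g = 0 := by
  have h1 : rho (0 : (Fin ℓ → K) →ₗ[K] (Fin ℓ → K)) g = g :=
    rho_eq_self (fun x hx => by rw [(Submodule.mem_bot K).1 hx]; simp) hg
  have h2 : rho (0 : (Fin ℓ → K) →ₗ[K] (Fin ℓ → K)) g = C (constantCoeff g) := by
    have : rho (0 : (Fin ℓ → K) →ₗ[K] (Fin ℓ → K)) =
        (Algebra.ofId K (MvPolynomial (Fin ℓ) K)).comp (aeval (fun _ => (0 : K))) := by
      apply MvPolynomial.algHom_ext
      intro i
      simp [rho_X, lin_zero]
    rw [this, AlgHom.comp_apply]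
    have h3 : (aeval (fun _ : Fin ℓ => (0 : K))) g = constantCoeff g := by
      have := MvPolynomial.aeval_zero' (S₁ := K) g
      simp
    rw [h3]; rfl
  rw [← h1, h2]
  have : constantCoeff g = 0 := by
    rw [constantCoeff_eq]
    by_contra h
    have := hh h
    simp at this
    omega
  rw [this, C_0]

/-- a linear projection onto a subspace -/
theorem exists_proj (L : Submodule K (Fin ℓ → K)) :
    ∃ P : (Fin ℓ → K) →ₗ[K] (Fin ℓ → K), (∀ x, P x ∈ L) ∧ ∀ x ∈ L, P x = x := by
  obtain ⟨L', hL'⟩ := Submodule.exists_isCompl L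
  refine ⟨L.subtype ∘ₗ Submodule.projectionOnto L L' hL', fun x => ?_, fun x hx => ?_⟩
  · exact Submodule.coe_mem _
  · have := Submodule.projectionOnto_apply_left hL' ⟨x, hx⟩
    exact congrArg Subtype.val this

/-- the concentration property of the arrangement `A` -/
def PP (A : Finset (Fin ℓ → K)) : Prop :=
  ∀ (j : ℕ) (c : Amb K ℓ), c ∈ DD A → (∀ I, (c I).IsHomogeneous j) →
    (∀ I, c I ∈ SA (Submodule.span K (A : Set (Fin ℓ → K)))) →
    wt A < j + Module.finrank K (Submodule.span K (A : Set (Fin ℓ → K))) → c ∈ W A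

theorem finrank_lt_of_closed {A G : Finset (Fin ℓ → K)} (hG : Cl A G) (hne : G ≠ A) :
    Module.finrank K (Submodule.span K (G : Set (Fin ℓ → K))) <
      Module.finrank K (Submodule.span K (A : Set (Fin ℓ → K))) := by
  apply Submodule.finrank_lt_finrank_of_lt
  refine lt_of_le_of_ne (Submodule.span_mono (by intro x hx; exact hG.1 hx)) ?_
  intro h
  apply hne
  apply Finset.Subset.antisymm hG.1
  intro a ha
  apply hG.2 a ha
  rw [h]
  exact Submodule.subset_span ha

theorem exists_mem_sdiff {A G : Finset (Fin ℓ → K)} (hG : Cl A G) (hne : G ≠ A) :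
    ∃ a ∈ A, a ∉ Submodule.span K (G : Set (Fin ℓ → K)) := by
  by_contra h
  push Not at h
  exact hne (Finset.Subset.antisymm hG.1 fun a ha => hG.2 a ha (h a ha))

/-- One step of the descent. -/
theorem step {A G : Finset (Fin ℓ → K)} (hA : ∀ a ∈ A, a ≠ 0) (hG : G ∈ PC A) (hPG : PP G)
    {𝒢 : Finset (Finset (Fin ℓ → K))} (h𝒢 : ∀ H ∈ 𝒢, Cl A H ∧ ¬ G ⊆ H)
    (h𝒢' : ∀ H ∈ PC G, H ∈ 𝒢) {j : ℕ} {ω : Amb K ℓ} (hω : ∀ I, (ω I).IsHomogeneous j)
    (hinv : ∀ I, ω I ∈ SA (Submodule.span K (A : Set (Fin ℓ → K))))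
    (hj : wt A < j + Module.finrank K (Submodule.span K (A : Set (Fin ℓ → K))))
    (hx : ∀ x ∈ Submodule.span K (A : Set (Fin ℓ → K)), lin x • ω ∈ M A G ⊔ U A 𝒢) :
    ∃ g ∈ M A G, (∀ I, (g I).IsHomogeneous j) ∧
      (∀ I, g I ∈ SA (Submodule.span K (A : Set (Fin ℓ → K)))) ∧
      ∀ x ∈ Submodule.span K (A : Set (Fin ℓ → K)), lin x • (ω - g) ∈ U A 𝒢 := by
  obtain ⟨hGc, hGne⟩ := mem_PC.1 hG
  have h𝒢A : ∀ H ∈ 𝒢, H ⊆ A := fun H hH => (h𝒢 H hH).1.1
  obtain ⟨π, hπ1, hπ2⟩ := exists_proj (Submodule.span K (A : Set (Fin ℓ → K)))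
  have hπA : ∀ a ∈ A, π a = a := fun a ha => hπ2 a (Submodule.subset_span ha)
  have hπω : rhoA π ω = ω := by funext I; exact rho_eq_self hπ2 (hinv I)
  obtain ⟨a, haA, haG⟩ := exists_mem_sdiff hGc hGne
  have ha0 : a ≠ 0 := hA a haA
  have haspan : a ∈ Submodule.span K (A : Set (Fin ℓ → K)) := Submodule.subset_span haA
  -- main claim: a suitable decomposition of `lin a • ω`
  have main : ∃ f : Module.Dual K (Fin ℓ → K), f a = 1 ∧
      (∀ x ∈ Submodule.span K (G : Set (Fin ℓ → K)), f x = 0) ∧
      ∃ h ∈ DD G, ∃ u ∈ U A 𝒢, lin a • ω = pl (A \ G) • h + u ∧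
        rhoA (shear f a) h ∈ W G := by
    by_cases hrk : Module.finrank K (Submodule.span K (A : Set (Fin ℓ → K))) ≤
        Module.finrank K (Submodule.span K (G : Set (Fin ℓ → K))) + 1
    · -- codimension one case
      obtain ⟨f, hf1, hf2⟩ := exists_functional haG
      refine ⟨f, hf1, hf2, ?_⟩
      have hcd : wt (A \ G) + wt G = wt A := wt_sdiff_add hGc.1
      have hrG : Module.finrank K (Submodule.span K (G : Set (Fin ℓ → K))) ≤ wt G := by
        have := finrank_span_finset_le_card (R := K) G
        exact le_trans this (card_le_wt G)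
      obtain ⟨m, hm⟩ : ∃ m, j + 1 = m + wt (A \ G) := by
        refine ⟨j + 1 - wt (A \ G), ?_⟩
        omega
      obtain ⟨q, hq, u, hu, hqu⟩ := Submodule.mem_sup.1 (hx a haspan)
      obtain ⟨h, hh, rfl⟩ := mem_M.1 hq
      -- homogenise and make invariant
      have e1 : lin a • ω = pl (A \ G) • rhoA π (hcA m h) + rhoA π (hcA (j + 1) u) := by
        have e2 : hcA (j + 1) (lin a • ω) = lin a • ω := by
          funext I
          simp only [hcA, Pi.smul_apply, smul_eq_mul]
          apply hc_of_homog
          have := (lin_isHomogeneous a).mul (hω I)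
          rwa [add_comm] at this
        have e3 : rhoA π (lin a • ω) = lin a • ω := by
          rw [rhoA_smul, hπω, rho_lin, hπ2 a haspan]
        rw [← e3]
        conv_lhs => rw [← e2, ← hqu]
        rw [hcA_add, rhoA_add]
        congr 1
        rw [hm, hcA_smul (pl_isHomogeneous _), rhoA_smul,
          rho_pl fun b hb => hπA b (Finset.mem_sdiff.1 hb).1]
      refine ⟨rhoA π (hcA m h), rhoA_DD (fun b hb => hπA b (hGc.1 hb)) (hcA_DD m hh),
        rhoA π (hcA (j + 1) u), rhoA_U h𝒢A hπA (hcA_U _ hu), e1, ?_⟩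
      apply hPG m
      · apply rhoA_DD
        · intro b hb
          rw [shear_apply, hf2 b (Submodule.subset_span hb)]
          simp
        · exact rhoA_DD (fun b hb => hπA b (hGc.1 hb)) (hcA_DD m hh)
      · intro I
        apply rho_isHomogeneous
        apply rho_isHomogeneous
        exact homogeneousComponent_isHomogeneous _ _
      · intro I
        apply rho_map_SA (L := Submodule.span K (A : Set (Fin ℓ → K)))
        · -- `shear f a` maps `span A` to `span G`
          intro x hx
          have hsup : Submodule.span K (A : Set (Fin ℓ → K)) =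
              Submodule.span K (G : Set (Fin ℓ → K)) ⊔ Submodule.span K {a} := by
            symm
            apply Submodule.eq_of_le_of_finrank_le
            · apply sup_le
              · exact Submodule.span_mono (by intro z hz; exact hGc.1 hz)
              · rw [Submodule.span_singleton_le_iff_mem]; exact haspan
            · refine hrk.trans ?_
              have hlt : Submodule.span K (G : Set (Fin ℓ → K)) <
                  Submodule.span K (G : Set (Fin ℓ → K)) ⊔ Submodule.span K {a} := by
                refine lt_of_le_of_ne le_sup_left ?_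
                intro he
                apply haG
                rw [he]
                exact Submodule.mem_sup_right (Submodule.mem_span_singleton_self a)
              exact Submodule.finrank_lt_finrank_of_lt hlt
          rw [hsup] at hx
          obtain ⟨g, hg, z, hz, rfl⟩ := Submodule.mem_sup.1 hx
          obtain ⟨t, rfl⟩ := Submodule.mem_span_singleton.1 hz
          rw [shear_apply, map_add, map_smul, hf1, hf2 g hg]
          simpa using hg
        · exact rho_mem_SA hπ1 _
      · omega
    · -- codimension at least two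
      push Not at hrk
      obtain ⟨b, hbA, hb⟩ : ∃ b ∈ A, b ∉ Submodule.span K (insert a (G : Set (Fin ℓ → K))) := by
        by_contra hcon
        push Not at hcon
        have h1 : Submodule.span K (A : Set (Fin ℓ → K)) ≤
            Submodule.span K (insert a (G : Set (Fin ℓ → K))) :=
          Submodule.span_le.2 fun b hb => hcon b hb
        have h2 := Submodule.finrank_mono h1
        rw [Submodule.span_insert] at h2
        have h3 := Submodule.finrank_add_le_finrank_add_finrank (Submodule.span K {a})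
          (Submodule.span K (G : Set (Fin ℓ → K)))
        have h4 : Module.finrank K (Submodule.span K {a}) ≤ 1 := by
          rw [finrank_span_singleton ha0]
        omega
      have hab : a ∉ Submodule.span K (insert b (G : Set (Fin ℓ → K))) := by
        intro hmem
        rw [Submodule.mem_span_insert] at hmem
        obtain ⟨t, z, hz, hazt⟩ := hmem
        by_cases ht : t = 0
        · rw [ht] at hazt; simp at hazt; exact haG (hazt ▸ hz)
        · apply hb
          rw [Submodule.mem_span_insert]
          refine ⟨t⁻¹, -(t⁻¹ • z), Submodule.neg_mem _ (Submodule.smul_mem _ _ hz), ?_⟩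
          rw [hazt, smul_add, smul_smul, inv_mul_cancel₀ ht, one_smul]
          abel
      have hbG : b ∉ Submodule.span K (G : Set (Fin ℓ → K)) := fun h =>
        hb (Submodule.span_mono (Set.subset_insert _ _) h)
      obtain ⟨f, hf1, hf2⟩ := exists_functional hab
      have hf3 : ∀ x ∈ Submodule.span K (G : Set (Fin ℓ → K)), f x = 0 := fun x hx =>
        hf2 x (Submodule.span_mono (Set.subset_insert _ _) hx)
      have hfb : f b = 0 := hf2 b (Submodule.subset_span (Set.mem_insert _ _))
      obtain ⟨q, hq, u, hu, hqu⟩ := Submodule.mem_sup.1 (hx a haspan)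
      obtain ⟨h, hh, rfl⟩ := mem_M.1 hq
      obtain ⟨q', hq', u', hu', hqu'⟩ := Submodule.mem_sup.1 (hx b (Submodule.subset_span hbA))
      obtain ⟨h', hh', rfl⟩ := mem_M.1 hq'
      refine ⟨f, hf1, hf3, h, hh, u, hu, hqu.symm, ?_⟩
      have hw : lin b • h - lin a • h' ∈ W G := by
        apply inter_lemma hA hGc h𝒢
        have : pl (A \ G) • (lin b • h - lin a • h') = lin a • u' - lin b • u := by
          have e1 : pl (A \ G) • h = lin a • ω - u := by rw [← hqu]; abel
          have e2 : pl (A \ G) • h' = lin b • ω - u' := by rw [← hqu']; abel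
          rw [smul_sub, smul_comm _ (lin b), smul_comm _ (lin a), e1, e2, smul_sub, smul_sub,
            smul_comm (lin b) (lin a)]
          abel
        rw [this]
        exact Submodule.sub_mem _ (Submodule.smul_mem _ _ hu') (Submodule.smul_mem _ _ hu)
      have hPfix : ∀ c ∈ G, shear f a c = c := by
        intro c hc
        rw [shear_apply, hf3 c (Submodule.subset_span hc)]; simp
      have h5 := rhoA_U (𝒢 := PC G) (fun H hH => PC_sub hH) hPfix hw
      rw [rhoA_sub, rhoA_smul, rhoA_smul, rho_lin, rho_lin, shear_apply, shear_apply, hf1,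
        hfb] at h5
      simp only [zero_smul, sub_zero, one_smul, sub_self, lin_zero] at h5
      exact torsion hbG h5
  obtain ⟨f, hf1, hf2, h, hh, u, hu, hdec, hrW⟩ := main
  have hfG : ∀ c ∈ G, f c = 0 := fun c hc => hf2 c (Submodule.subset_span hc)
  have hg0 : ddA f a h ∈ DD G := ddA_DD ha0 hfG hh
  -- the property of `g1`
  have hprop : ∀ x ∈ Submodule.span K (A : Set (Fin ℓ → K)),
      lin x • (ω - pl (A \ G) • ddA f a h) ∈ U A 𝒢 := by
    intro x hxA
    obtain ⟨q, hq, ux, hux, hqux⟩ := Submodule.mem_sup.1 (hx x hxA)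
    obtain ⟨hX, hhX, rfl⟩ := mem_M.1 hq
    have hT : hX - lin x • ddA f a h ∈ W G := by
      apply torsion haG
      have e0 : lin a • ddA f a h = h - rhoA (shear f a) h := by
        conv_rhs => rw [ddA_spec f a h]
        have : rhoA (shear f a) (rhoA (shear f a) h + lin a • ddA f a h) =
            rhoA (shear f a) h := by
          rw [← ddA_spec f a h]
        rw [this]; abel
      have e1 : lin a • (hX - lin x • ddA f a h) =
          (lin a • hX - lin x • h) + lin x • rhoA (shear f a) h := by
        rw [smul_sub, smul_comm (lin a) (lin x), e0, smul_sub]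
        abel
      rw [e1]
      refine Submodule.add_mem _ ?_ (Submodule.smul_mem _ _ hrW)
      apply inter_lemma hA hGc h𝒢
      have : pl (A \ G) • (lin a • hX - lin x • h) = lin x • u - lin a • ux := by
        have e1 : pl (A \ G) • h = lin a • ω - u := by rw [hdec]; abel
        have e2 : pl (A \ G) • hX = lin x • ω - ux := by rw [← hqux]; abel
        rw [smul_sub, smul_comm _ (lin a), smul_comm _ (lin x), e1, e2, smul_sub, smul_sub,
          smul_comm (lin a) (lin x)]
        abel
      rw [this]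
      exact Submodule.sub_mem _ (Submodule.smul_mem _ _ hu) (Submodule.smul_mem _ _ hux)
    have e3 : lin x • (ω - pl (A \ G) • ddA f a h) =
        pl (A \ G) • (hX - lin x • ddA f a h) + ux := by
      rw [smul_sub, ← hqux, smul_sub, smul_comm (pl (A \ G)) (lin x)]
      abel
    rw [e3]
    exact Submodule.add_mem _ (smul_W_le hGc h𝒢' hT) hux
  -- post-process
  refine ⟨hcA j (rhoA π (pl (A \ G) • ddA f a h)), ?_, ?_, ?_, ?_⟩
  · exact hcA_M _ (rhoA_M hπA hGc.1 (mem_M.2 ⟨_, hg0, rfl⟩))
  · intro I
    exact homogeneousComponent_isHomogeneous _ _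
  · intro I
    rw [hcA_rhoA]
    exact rho_mem_SA hπ1 _
  · intro x hxA
    have e : lin x • (ω - hcA j (rhoA π (pl (A \ G) • ddA f a h))) =
        hcA (j + 1) (rhoA π (lin x • (ω - pl (A \ G) • ddA f a h))) := by
      rw [rhoA_smul π (lin x), rho_lin, hπ2 x hxA, rhoA_sub, hπω, hcA_smul (lin_isHomogeneous x),
        hcA_sub]
      congr 2
      funext I
      exact (hc_of_homog (hω I)).symm
    rw [e]
    exact hcA_U _ (rhoA_U h𝒢A hπA (hprop x hxA))

theorem U_insert_le {A G : Finset (Fin ℓ → K)} {𝒢 : Finset (Finset (Fin ℓ → K))} (hG : G ∈ 𝒢) :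
    U A 𝒢 ≤ M A G ⊔ U A (𝒢.erase G) := by
  apply U_le
  intro H hH
  by_cases h : H = G
  · subst h; exact le_sup_left
  · exact (M_le_U (Finset.mem_erase.2 ⟨h, hH⟩)).trans le_sup_right

theorem socle {A : Finset (Fin ℓ → K)} (hA : ∀ a ∈ A, a ≠ 0) (hne : A.Nonempty)
    (hP : ∀ G ∈ PC A, PP G) (n : ℕ) :
    ∀ 𝒢 : Finset (Finset (Fin ℓ → K)), 𝒢.card = n → 𝒢 ⊆ PC A →
      (∀ G ∈ 𝒢, ∀ H ∈ PC A, H ⊆ G → H ∈ 𝒢) →
      ∀ (j : ℕ) (ω : Amb K ℓ), (∀ I, (ω I).IsHomogeneous j) →
        (∀ I, ω I ∈ SA (Submodule.span K (A : Set (Fin ℓ → K)))) →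
        (wt A < j + Module.finrank K (Submodule.span K (A : Set (Fin ℓ → K)))) →
        (∀ x ∈ Submodule.span K (A : Set (Fin ℓ → K)), lin x • ω ∈ U A 𝒢) → ω ∈ W A := by
  induction n with
  | zero =>
    intro 𝒢 hc _ _ j ω _ _ _ hx
    obtain ⟨a, ha⟩ := hne
    have h𝒢 : 𝒢 = ∅ := Finset.card_eq_zero.1 hc
    have h1 := hx a (Submodule.subset_span ha)
    have h2 : U A 𝒢 ≤ ⊥ := U_le (by intro G hG; rw [h𝒢] at hG; simp at hG)
    have h3 : lin a • ω = 0 := (Submodule.mem_bot _).1 (h2 h1)
    have h4 : ω = 0 := by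
      funext I
      have := congrFun h3 I
      simp only [Pi.smul_apply, smul_eq_mul, Pi.zero_apply] at this
      exact (mul_eq_zero.1 this).resolve_left (lin_ne_zero (hA a ha))
    rw [h4]; exact Submodule.zero_mem _
  | succ n ih =>
    intro 𝒢 hc hsub hdown j ω hω hinv hj hx
    have hne' : 𝒢.Nonempty := Finset.card_pos.1 (by omega)
    obtain ⟨G, hG, hmax⟩ := Finset.exists_max_image 𝒢 Finset.card hne'
    have hGP : G ∈ PC A := hsub hG
    have hnot : ∀ H ∈ 𝒢.erase G, ¬ G ⊆ H := by
      intro H hH hGH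
      obtain ⟨h1, h2⟩ := Finset.mem_erase.1 hH
      exact h1 (Finset.eq_of_subset_of_card_le hGH (hmax H h2)).symm
    obtain ⟨g, hgM, hg1, hg2, hg3⟩ := step hA hGP (hP G hGP) (𝒢 := 𝒢.erase G)
      (fun H hH => ⟨(mem_PC.1 (hsub (Finset.mem_of_mem_erase hH))).1, hnot H hH⟩)
      (by
        intro H hH
        rw [Finset.mem_erase]
        refine ⟨(mem_PC.1 hH).2, hdown G hG H ?_ (PC_sub hH)⟩
        rw [mem_PC]
        refine ⟨Cl_trans (mem_PC.1 hGP).1 (mem_PC.1 hH).1, ?_⟩
        rintro rfl
        exact (mem_PC.1 hGP).2 (Finset.Subset.antisymm (PC_sub hGP) (PC_sub hH)))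
      hω hinv hj (fun x hxA => U_insert_le hG (hx x hxA))
    have h5 : ω - g ∈ W A := by
      apply ih (𝒢.erase G) (by rw [Finset.card_erase_of_mem hG, hc]; rfl)
        ((Finset.erase_subset _ _).trans hsub) _ j (ω - g)
      · intro I; exact (hω I).sub (hg1 I)
      · intro I; exact (SA _).sub_mem (hinv I) (hg2 I)
      · exact hj
      · exact hg3
      · intro G' hG' H hH hHG'
        rw [Finset.mem_erase]
        obtain ⟨h1, h2⟩ := Finset.mem_erase.1 hG'
        refine ⟨?_, hdown G' h2 H hH hHG'⟩
        rintro rfl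
        exact hnot G' hG' hHG'
    have h6 : g ∈ W A := M_le_U hGP hgM
    have := Submodule.add_mem _ h5 h6
    simpa using this

/-- nilpotency -/
theorem exists_pow_le (A : Finset (Fin ℓ → K)) :
    ∃ N : ℕ, (Ideal.span (lin '' (A : Set (Fin ℓ → K)))) ^ N ≤
      Ideal.span ((fun G => pl (A \ G)) '' (PC A : Set (Finset (Fin ℓ → K)))) := by
  apply Ideal.exists_pow_le_of_le_radical_of_fg
  · rw [Ideal.radical_eq_sInf]
    apply le_sInf
    rintro 𝔭 ⟨h𝔭, hprime⟩
    rw [Ideal.span_le]
    rintro _ ⟨a, ha, rfl⟩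
    by_contra hcon
    -- the closed set of forms lying in `𝔭`
    set G : Finset (Fin ℓ → K) := A.filter (fun b => lin b ∈ 𝔭) with hGdef
    have hcl : Cl A G := by
      refine ⟨Finset.filter_subset _ _, ?_⟩
      intro b hb hs
      rw [hGdef, Finset.mem_filter]
      refine ⟨hb, ?_⟩
      have h1 : Submodule.span K (G : Set (Fin ℓ → K)) ≤
          Submodule.comap (linL K ℓ) (𝔭.restrictScalars K) := by
        rw [Submodule.span_le]
        intro z hz
        have hz' := Finset.mem_filter.1 hz
        exact hz'.2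
      exact h1 hs
    have hGA : G ≠ A := by
      intro he
      have : a ∈ G := he ▸ ha
      exact hcon (Finset.mem_filter.1 this).2
    have h2 : pl (A \ G) ∈ 𝔭 := h𝔭 (Ideal.subset_span ⟨G, mem_PC.2 ⟨hcl, hGA⟩, rfl⟩)
    unfold pl at h2
    rw [hprime.prod_mem_iff] at h2
    obtain ⟨b, hb, hb''⟩ := h2
    have hb' := hprime.mem_of_pow_mem _ hb''
    have hb2 := Finset.mem_sdiff.1 hb
    exact hb2.2 (Finset.mem_filter.2 ⟨hb2.1, hb'⟩)
  · exact (Submodule.fg_span (A.finite_toSet.image _))

theorem ideal_smul_DD {A : Finset (Fin ℓ → K)} {s : MvPolynomial (Fin ℓ) K}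
    (hs : s ∈ Ideal.span ((fun G => pl (A \ G)) '' (PC A : Set (Finset (Fin ℓ → K)))))
    {c : Amb K ℓ} (hc : c ∈ DD A) : s • c ∈ W A := by
  induction hs using Submodule.span_induction with
  | mem x hx =>
    obtain ⟨G, hG, rfl⟩ := hx
    exact M_le_U hG (mem_M.2 ⟨c, DD_mono (PC_sub hG) hc, rfl⟩)
  | zero => rw [zero_smul]; exact Submodule.zero_mem _
  | add x y _ _ hx hy => rw [add_smul]; exact Submodule.add_mem _ hx hy
  | smul a x _ hx => rw [smul_eq_mul, mul_smul]; exact Submodule.smul_mem _ _ hx

theorem PP_all (n : ℕ) : ∀ A : Finset (Fin ℓ → K), A.card = n → (∀ a ∈ A, a ≠ 0) → PP A := by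
  induction n using Nat.strong_induction_on with
  | _ n ih =>
    intro A hcard hA
    rcases A.eq_empty_or_nonempty with rfl | hne
    · intro j c _ hh hinv hj
      have : c = 0 := by
        funext I
        have h1 := hinv I
        have h0 : Module.finrank K (Submodule.span K ((∅ : Finset (Fin ℓ → K)) :
            Set (Fin ℓ → K))) = 0 := by
          rw [Finset.coe_empty, Submodule.span_empty]
          exact finrank_bot K _
        rw [h0, wt_empty] at hj
        rw [Finset.coe_empty, Submodule.span_empty] at h1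
        exact eq_zero_of_SA_bot h1 (j := j) (by omega) (hh I)
      rw [this]; exact Submodule.zero_mem _
    · have hP : ∀ G ∈ PC A, PP G := by
        intro G hG
        apply ih G.card _ G rfl (fun a ha => hA a (PC_sub hG ha))
        rw [← hcard]
        apply Finset.card_lt_card
        exact Finset.ssubset_iff_subset_ne.2 ⟨PC_sub hG, (mem_PC.1 hG).2⟩
      obtain ⟨N, hN⟩ := exists_pow_le A
      have key : ∀ k : ℕ, ∀ (j : ℕ) (c : Amb K ℓ), c ∈ DD A → (∀ I, (c I).IsHomogeneous j) →
          (∀ I, c I ∈ SA (Submodule.span K (A : Set (Fin ℓ → K)))) →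
          wt A < j + Module.finrank K (Submodule.span K (A : Set (Fin ℓ → K))) →
          (∀ s ∈ (Ideal.span (lin '' (A : Set (Fin ℓ → K)))) ^ k, s • c ∈ W A) → c ∈ W A := by
        intro k
        induction k with
        | zero =>
          intro j c _ _ _ _ hs
          have := hs 1 (by simp)
          rwa [one_smul] at this
        | succ k ihk =>
          intro j c hc hh hinv hj hs
          apply socle hA hne hP (PC A).card (PC A) rfl (Finset.Subset.refl _)
            (fun _ _ H hH _ => hH) j c hh hinv hj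
          intro x hx
          apply ihk (j + 1) (lin x • c) (Submodule.smul_mem _ _ hc)
          · intro I
            have := (lin_isHomogeneous x).mul (hh I)
            rw [add_comm] at this
            exact this
          · intro I
            exact (SA _).mul_mem (lin_mem_SA hx) (hinv I)
          · omega
          · intro s hs'
            rw [smul_smul]
            apply hs
            rw [pow_succ]
            apply Ideal.mul_mem_mul hs'
            -- `lin x` is in the ideal
            have h1 : Submodule.span K (A : Set (Fin ℓ → K)) ≤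
                Submodule.comap (linL K ℓ)
                  ((Ideal.span (lin '' (A : Set (Fin ℓ → K)))).restrictScalars K) := by
              rw [Submodule.span_le]
              intro z hz
              exact Ideal.subset_span ⟨z, hz, rfl⟩
            exact h1 hx
      intro j c hc hh hinv hj
      exact key N j c hc hh hinv hj (fun s hs => ideal_smul_DD (hN hs) hc)

end Pool.Agent.H3MA
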