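import Pool.Agent.H3MA.Count

set_option autoImplicit false

/-!
Iterated reduction and the vanishing of the Euler characteristic of `DD G / W G`.
-/

namespace Pool.Agent.H3MA

open MvPolynomial
open scoped Classical

set_option linter.unusedSectionVars false

variable {K : Type*} [Field K] {ℓ : ℕ} [Mult K ℓ]

/-- a dual family `(f k, y k)` -/
structure DualFam (d : ℕ) (f : Fin d → Module.Dual K (Fin ℓ → K)) (y : Fin d → (Fin ℓ → K)) :
    Prop where
  one : ∀ k, f k (y k) = 1
  zero : ∀ k l, k ≠ l → f k (y l) = 0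

theorem DualFam.ne {d : ℕ} {f : Fin d → Module.Dual K (Fin ℓ → K)} {y : Fin d → (Fin ℓ → K)}
    (h : DualFam d f y) (k : Fin d) : y k ≠ 0 := by
  intro h0
  have := h.one k
  rw [h0, map_zero] at this
  exact zero_ne_one this

/-- the reduced subspace for a set of indices -/
noncomputable def RdS (N : Submodule K (Amb K ℓ)) {d : ℕ}
    {f : Fin d → Module.Dual K (Fin ℓ → K)} {y : Fin d → (Fin ℓ → K)} (h : DualFam d f y)
    (s : Finset (Fin d)) : Submodule K (Amb K ℓ) :=
  N ⊓ ⨅ k : {k // k ∈ s}, (LinearMap.ker (ctrK (y k.1)) ⊓ LinearMap.ker (ddK (f k.1) (h.ne k.1)))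

theorem mem_RdS {N : Submodule K (Amb K ℓ)} {d : ℕ}
    {f : Fin d → Module.Dual K (Fin ℓ → K)} {y : Fin d → (Fin ℓ → K)} {h : DualFam d f y}
    {s : Finset (Fin d)} {c : Amb K ℓ} :
    c ∈ RdS N h s ↔ c ∈ N ∧ ∀ k ∈ s, ctr (y k) c = 0 ∧ ddA (f k) (y k) c = 0 := by
  unfold RdS
  rw [Submodule.mem_inf, Submodule.mem_iInf]
  constructor
  · rintro ⟨h1, h2⟩
    refine ⟨h1, fun k hk => ?_⟩
    have := h2 ⟨k, hk⟩
    rw [Submodule.mem_inf, LinearMap.mem_ker, LinearMap.mem_ker] at this
    exact this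
  · rintro ⟨h1, h2⟩
    refine ⟨h1, fun k => ?_⟩
    rw [Submodule.mem_inf, LinearMap.mem_ker, LinearMap.mem_ker]
    exact h2 k.1 k.2

theorem RdS_insert {N : Submodule K (Amb K ℓ)} {d : ℕ}
    {f : Fin d → Module.Dual K (Fin ℓ → K)} {y : Fin d → (Fin ℓ → K)} (h : DualFam d f y)
    {s : Finset (Fin d)} {i : Fin d} :
    RdS N h (insert i s) = Rd (RdS N h s) (f i) (h.ne i) := by
  ext c
  rw [Rd, Submodule.mem_inf, Submodule.mem_inf, mem_RdS, mem_RdS, LinearMap.mem_ker,
    LinearMap.mem_ker]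
  constructor
  · rintro ⟨h1, h2⟩
    have h3 := h2 i (Finset.mem_insert_self _ _)
    exact ⟨⟨⟨h1, fun k hk => h2 k (Finset.mem_insert_of_mem hk)⟩, h3.1⟩, h3.2⟩
  · rintro ⟨⟨⟨h1, h2⟩, h3⟩, h4⟩
    refine ⟨h1, fun k hk => ?_⟩
    rcases Finset.mem_insert.1 hk with rfl | hk
    · exact ⟨h3, h4⟩
    · exact h2 k hk

theorem ddA_eq_zero_iff {f : Module.Dual K (Fin ℓ → K)} {y : Fin ℓ → K} (hy : y ≠ 0)
    {c : Amb K ℓ} : ddA f y c = 0 ↔ rhoA (shear f y) c = c := by
  constructor
  · intro h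
    have := ddA_spec f y c
    rw [h, smul_zero, add_zero] at this
    exact this.symm
  · intro h
    have := ddA_spec f y c
    rw [h] at this
    have h2 : lin y • ddA f y c = 0 := by
      have h3 := congrArg (fun z => z - c) this
      simpa using h3.symm
    funext I
    have h3 := congrFun h2 I
    simp only [Pi.smul_apply, smul_eq_mul, Pi.zero_apply] at h3
    exact (mul_eq_zero.1 h3).resolve_left (lin_ne_zero hy)

theorem smul_lin_cancel {y : Fin ℓ → K} (hy : y ≠ 0) {c d : Amb K ℓ}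
    (h : lin y • c = lin y • d) : c = d := by
  funext I
  have := congrFun h I
  simp only [Pi.smul_apply, smul_eq_mul] at this
  exact mul_left_cancel₀ (lin_ne_zero hy) this

theorem rhoA_comp (P Q : (Fin ℓ → K) →ₗ[K] (Fin ℓ → K)) (c : Amb K ℓ) :
    rhoA P (rhoA Q c) = rhoA (P ∘ₗ Q) c := by
  funext I
  exact rho_comp P Q (c I)

theorem stab_RdS {N : Submodule K (Amb K ℓ)} {d : ℕ}
    {f : Fin d → Module.Dual K (Fin ℓ → K)} {y : Fin d → (Fin ℓ → K)} (h : DualFam d f y)
    {s : Finset (Fin d)} {i : Fin d} (hi : i ∉ s) (hN : Stab N (f i) (y i)) :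
    Stab (RdS N h s) (f i) (y i) := by
  have hne : ∀ k ∈ s, k ≠ i := fun k hk hki => hi (hki ▸ hk)
  refine ⟨?_, ?_, ?_, ?_⟩
  · intro c hc
    rw [mem_RdS] at hc ⊢
    refine ⟨hN.hlin c hc.1, fun k hk => ?_⟩
    have hk2 := hc.2 k hk
    refine ⟨by rw [map_smul, hk2.1, smul_zero], ?_⟩
    rw [ddA_smul_fixed (h.ne k), hk2.2, smul_zero]
    rw [rho_lin, shear_apply, h.zero k i (hne k hk)]
    simp
  · intro c hc
    rw [mem_RdS] at hc ⊢
    refine ⟨hN.hdd c hc.1, fun k hk => ?_⟩
    have hk2 := hc.2 k hk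
    refine ⟨by rw [ctr_ddA (h.ne i), hk2.1, ddA_zero (h.ne i)], ?_⟩
    rw [ddA_eq_zero_iff (h.ne k)] at hk2 ⊢
    apply smul_lin_cancel (h.ne i)
    have e1 := ddA_spec (f i) (y i) c
    have hcomm : rhoA (shear (f k) (y k)) (rhoA (shear (f i) (y i)) c) =
        rhoA (shear (f i) (y i)) (rhoA (shear (f k) (y k)) c) := by
      rw [rhoA_comp, rhoA_comp]
      congr 1
      apply LinearMap.ext
      intro x
      simp only [LinearMap.comp_apply, shear_apply, map_sub, map_smul, h.zero k i (hne k hk),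
        h.zero i k (Ne.symm (hne k hk)), zero_smul, sub_zero]
      abel
    have e2 := congrArg (rhoA (shear (f k) (y k))) e1
    rw [rhoA_add, hcomm, hk2.2, rhoA_smul, rho_lin, shear_apply, h.zero k i (hne k hk),
      zero_smul, sub_zero] at e2
    have e3 : rhoA (shear (f i) (y i)) c + lin (y i) • rhoA (shear (f k) (y k))
        (ddA (f i) (y i) c) =
        rhoA (shear (f i) (y i)) c + lin (y i) • ddA (f i) (y i) c := by
      rw [← e2, ← e1]
    exact add_left_cancel e3
  · intro c hc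
    rw [mem_RdS] at hc ⊢
    refine ⟨hN.hctr c hc.1, fun k hk => ?_⟩
    have hk2 := hc.2 k hk
    refine ⟨by rw [ctr_ctr, hk2.1, map_zero, neg_zero], ?_⟩
    rw [← ctr_ddA (h.ne k), hk2.2, map_zero]
  · intro c hc
    rw [mem_RdS] at hc ⊢
    refine ⟨hN.hwdg c hc.1, fun k hk => ?_⟩
    have hk2 := hc.2 k hk
    refine ⟨?_, by rw [← wdg_ddA (h.ne k), hk2.2, map_zero]⟩
    have := ctr_wdg_vec (f i) (y k) c
    rw [hk2.1, map_zero, add_zero, h.zero i k (Ne.symm (hne k hk)), zero_smul] at this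
    exact this

theorem EF_RdS {N : Submodule K (Amb K ℓ)} {d : ℕ}
    {f : Fin d → Module.Dual K (Fin ℓ → K)} {y : Fin d → (Fin ℓ → K)} (h : DualFam d f y)
    (hN : ∀ i, Stab N (f i) (y i)) (m : ℕ) (s : Finset (Fin d)) :
    EF N m = EF (RdS N h s) m := by
  induction s using Finset.induction_on with
  | empty =>
    congr 1
    ext c
    rw [mem_RdS]
    simp
  | insert i s hi ih =>
    rw [ih, RdS_insert, ← EF_reduce (stab_RdS h hi (hN i)) (h.one i) (h.ne i)]

/-! ### stability of `DD G` and `W G` -/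

theorem dvd_ctr {q : MvPolynomial (Fin ℓ) K} {c : Amb K ℓ} (h : ∀ J, q ∣ c J)
    (a : Fin ℓ → K) (J : Finset (Fin ℓ)) : q ∣ ctr a c J := by
  rw [ctr_apply, Finset.sum_apply]
  apply Finset.dvd_sum
  intro i _
  simp only [Pi.smul_apply, ctr1_apply]
  split_ifs
  · simp
  · rw [MvPolynomial.smul_eq_C_mul, MvPolynomial.smul_eq_C_mul]
    exact Dvd.dvd.mul_left (Dvd.dvd.mul_left (h _) _) _

theorem dvd_wdg {q : MvPolynomial (Fin ℓ) K} {c : Amb K ℓ} (h : ∀ J, q ∣ c J)
    (a : Fin ℓ → K) (J : Finset (Fin ℓ)) : q ∣ wdg a c J := by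
  rw [wdg_apply, Finset.sum_apply]
  apply Finset.dvd_sum
  intro i _
  simp only [Pi.smul_apply, wdg1_apply]
  split_ifs
  · rw [MvPolynomial.smul_eq_C_mul, MvPolynomial.smul_eq_C_mul]
    exact Dvd.dvd.mul_left (Dvd.dvd.mul_left (h _) _) _
  · simp

theorem ctr_DD {G : Finset (Fin ℓ → K)} (y : Fin ℓ → K) {c : Amb K ℓ} (hc : c ∈ DD G) :
    ctr y c ∈ DD G := by
  intro a ha J
  rw [ctr_ctr, Pi.neg_apply, dvd_neg]
  exact dvd_ctr (hc a ha) y J

theorem wdg_DD {G : Finset (Fin ℓ → K)} {f : Module.Dual K (Fin ℓ → K)}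
    (hf : ∀ a ∈ G, f a = 0) {c : Amb K ℓ} (hc : c ∈ DD G) :
    wdg (vec f) c ∈ DD G := by
  intro a ha J
  have := ctr_wdg_vec f a c
  rw [hf a ha, zero_smul] at this
  rw [eq_neg_of_add_eq_zero_left this, Pi.neg_apply, dvd_neg]
  exact dvd_wdg (hc a ha) _ J

theorem ctr_U {A : Finset (Fin ℓ → K)} {𝒢 : Finset (Finset (Fin ℓ → K))} (y : Fin ℓ → K)
    {c : Amb K ℓ} (hc : c ∈ U A 𝒢) : ctr y c ∈ U A 𝒢 := by
  refine U_stable (fun c => ctr y c) (map_zero _) (map_add _) ?_ c hc
  intro G hG c hc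
  obtain ⟨d, hd, rfl⟩ := mem_M.1 hc
  apply M_le_U hG
  exact mem_M.2 ⟨ctr y d, ctr_DD y hd, by rw [map_smul]⟩

theorem wdg_U {A : Finset (Fin ℓ → K)} {𝒢 : Finset (Finset (Fin ℓ → K))}
    (h𝒢 : ∀ G ∈ 𝒢, G ⊆ A) {f : Module.Dual K (Fin ℓ → K)} (hf : ∀ a ∈ A, f a = 0)
    {c : Amb K ℓ} (hc : c ∈ U A 𝒢) : wdg (vec f) c ∈ U A 𝒢 := by
  refine U_stable (fun c => wdg (vec f) c) (map_zero _) (map_add _) ?_ c hc
  intro G hG c hc
  obtain ⟨d, hd, rfl⟩ := mem_M.1 hc
  apply M_le_U hG
  exact mem_M.2 ⟨wdg (vec f) d, wdg_DD (fun a ha => hf a (h𝒢 G hG ha)) hd, by rw [map_smul]⟩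

theorem stab_DD {G : Finset (Fin ℓ → K)} {f : Module.Dual K (Fin ℓ → K)} {y : Fin ℓ → K}
    (hy : y ≠ 0) (hf : ∀ a ∈ G, f a = 0) : Stab ((DD G).restrictScalars K) f y where
  hlin _ hc := Submodule.smul_mem (DD G) _ hc
  hdd _ hc := ddA_DD hy hf hc
  hctr _ hc := ctr_DD y hc
  hwdg _ hc := wdg_DD hf hc

theorem stab_W {G : Finset (Fin ℓ → K)} {f : Module.Dual K (Fin ℓ → K)} {y : Fin ℓ → K}
    (hy : y ≠ 0) (hf : ∀ a ∈ G, f a = 0) : Stab ((W G).restrictScalars K) f y where
  hlin _ hc := Submodule.smul_mem (W G) _ hc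
  hdd _ hc := ddA_U (fun _ hH => PC_sub hH) hy hf hc
  hctr _ hc := ctr_U y hc
  hwdg _ hc := wdg_U (fun _ hH => PC_sub hH) hf hc

/-! ### the complement of `span G` -/

theorem exists_dualFam (L : Submodule K (Fin ℓ → K)) :
    ∃ (d : ℕ) (f : Fin d → Module.Dual K (Fin ℓ → K)) (y : Fin d → (Fin ℓ → K)),
      DualFam d f y ∧ (∀ k, ∀ x ∈ L, f k x = 0) ∧ (∀ x, x - ∑ k, f k x • y k ∈ L) ∧
      Module.finrank K L + d = ℓ := by
  obtain ⟨L', hL'⟩ := Submodule.exists_isCompl L
  let b := Module.finBasis K L'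
  let π := Submodule.projectionOnto L' L hL'.symm
  refine ⟨Module.finrank K L', fun k => (b.coord k) ∘ₗ π, fun k => (b k : Fin ℓ → K),
    ⟨?_, ?_⟩, ?_, ?_, ?_⟩
  · intro k
    have : π (b k : Fin ℓ → K) = b k := Submodule.projectionOnto_apply_left hL'.symm (b k)
    simp [this]
  · intro k l hkl
    have : π (b l : Fin ℓ → K) = b l := Submodule.projectionOnto_apply_left hL'.symm (b l)
    simp [this, Finsupp.single_apply, Ne.symm hkl]
  · intro k x hx
    have : π x = 0 := by
      have := Submodule.projectionOnto_apply_right hL'.symm ⟨x, hx⟩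
      exact this
    simp [this]
  · intro x
    have h1 : (∑ k, ((b.coord k) ∘ₗ π) x • (b k : Fin ℓ → K)) = (π x : Fin ℓ → K) := by
      have := b.sum_repr (π x)
      have h2 := congrArg (fun z : L' => (z : Fin ℓ → K)) this
      simp only [Submodule.coe_sum, Submodule.coe_smul] at h2
      rw [← h2]
      rfl
    rw [h1]
    -- decompose `x`
    obtain ⟨u, v, hu, hv, huv⟩ := Submodule.codisjoint_iff_exists_add_eq.1 hL'.codisjoint x
    have h3 : (π x : Fin ℓ → K) = v := by
      rw [← huv, map_add]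
      have e1 : π (u : Fin ℓ → K) = 0 := Submodule.projectionOnto_apply_right hL'.symm ⟨u, hu⟩
      have e2 : π (v : Fin ℓ → K) = ⟨v, hv⟩ :=
        Submodule.projectionOnto_apply_left hL'.symm ⟨v, hv⟩
      rw [e1, e2, zero_add]
    rw [h3, ← huv, add_sub_cancel_right]
    exact hu
  · have := Submodule.finrank_add_eq_of_isCompl hL'
    simpa using this

/-- invariance under all shears gives coefficients in `SA L` -/
theorem mem_SA_of_inv {L : Submodule K (Fin ℓ → K)} {d : ℕ}
    {f : Fin d → Module.Dual K (Fin ℓ → K)} {y : Fin d → (Fin ℓ → K)} (h : DualFam d f y)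
    (hL : ∀ x, x - ∑ k, f k x • y k ∈ L) {c : Amb K ℓ}
    (hc : ∀ k, ddA (f k) (y k) c = 0) (I : Finset (Fin ℓ)) : c I ∈ SA L := by
  have key : ∀ s : Finset (Fin d),
      rhoA (LinearMap.id - ∑ k ∈ s, (f k).smulRight (y k)) c = c := by
    intro s
    induction s using Finset.induction_on with
    | empty =>
      rw [Finset.sum_empty, sub_zero]
      funext I
      exact rho_eq_self (L := ⊤) (fun x _ => rfl) (by
        have : ∀ g : MvPolynomial (Fin ℓ) K, g ∈ SA (⊤ : Submodule K (Fin ℓ → K)) := by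
          intro g
          induction g using MvPolynomial.induction_on with
          | C t => exact (SA _).algebraMap_mem t
          | add p q hp hq => exact (SA _).add_mem hp hq
          | mul_X p i hp =>
            refine (SA _).mul_mem hp ?_
            rw [← lin_single]
            exact lin_mem_SA Submodule.mem_top
        exact this _)
    | insert i s hi ih =>
      have h1 : (LinearMap.id - ∑ k ∈ insert i s, (f k).smulRight (y k) :
          (Fin ℓ → K) →ₗ[K] (Fin ℓ → K)) =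
          shear (f i) (y i) ∘ₗ (LinearMap.id - ∑ k ∈ s, (f k).smulRight (y k)) := by
        rw [Finset.sum_insert hi]
        apply LinearMap.ext
        intro x
        simp only [LinearMap.sub_apply, LinearMap.id_apply, LinearMap.add_apply,
          LinearMap.smulRight_apply, LinearMap.comp_apply, shear_apply, LinearMap.sum_apply,
          map_sub, map_sum, map_smul]
        have : ∑ k ∈ s, f k x • (y k - (f i) (y k) • y i) = ∑ k ∈ s, f k x • y k := by
          apply Finset.sum_congr rfl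
          intro k hk
          rw [h.zero i k (by rintro rfl; exact hi hk), zero_smul, sub_zero]
        rw [this]
        abel
      rw [h1, ← rhoA_comp, ih]
      exact (ddA_eq_zero_iff (h.ne i)).1 (hc i)
  have h2 := key Finset.univ
  rw [← h2]
  apply rho_mem_SA
  intro x
  have := hL x
  simpa [LinearMap.sub_apply, LinearMap.sum_apply] using this

/-! ### top degree -/

theorem lin_dvd_of_dvd_pow_mul {a y : Fin ℓ → K} (h : LinearIndependent K ![a, y]) (n : ℕ)
    {g : MvPolynomial (Fin ℓ) K} (hg : lin a ∣ lin y ^ n * g) : lin a ∣ g := by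
  induction n with
  | zero => simpa using hg
  | succ n ih =>
    rw [pow_succ', mul_assoc] at hg
    exact ih (lin_dvd_of_dvd_mul h hg)

theorem lin_pow_dvd_of_dvd_pow_mul {a y : Fin ℓ → K} (h : LinearIndependent K ![a, y])
    (k n : ℕ) {g : MvPolynomial (Fin ℓ) K} (hg : lin a ^ k ∣ lin y ^ n * g) :
    lin a ^ k ∣ g := by
  induction k generalizing g with
  | zero => simp
  | succ k ih =>
    have h1 : lin a ∣ lin y ^ n * g := (dvd_pow_self _ (Nat.succ_ne_zero k)).trans hg
    obtain ⟨q, rfl⟩ := lin_dvd_of_dvd_pow_mul h n h1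
    have ha0 : lin a ≠ 0 := by
      apply lin_ne_zero
      rintro rfl
      exact h.ne_zero 0 rfl
    have h2 : lin a ^ k ∣ lin y ^ n * q := by
      have h3 : lin a * lin a ^ k ∣ lin a * (lin y ^ n * q) := by
        rw [← pow_succ']
        have : lin a * (lin y ^ n * q) = lin y ^ n * (lin a * q) := by ring
        rw [this]
        exact hg
      exact (mul_dvd_mul_iff_left ha0).1 h3
    rw [pow_succ']
    exact mul_dvd_mul_left _ (ih h2)

theorem prod_dvd {B : Finset (Fin ℓ → K)}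
    (hB : ∀ a ∈ B, ∀ b ∈ B, a ≠ b → LinearIndependent K ![a, b])
    {g : MvPolynomial (Fin ℓ) K} (h : ∀ a ∈ B, lin a ^ mu a ∣ g) : pl B ∣ g := by
  induction B using Finset.induction_on generalizing g with
  | empty => simp [pl]
  | insert b B hb ih =>
    obtain ⟨k, rfl⟩ := h b (Finset.mem_insert_self _ _)
    have h1 : pl (insert b B) = lin b ^ mu b * pl B := by
      unfold pl; rw [Finset.prod_insert hb]
    rw [h1]
    apply mul_dvd_mul_left
    apply ih (fun a ha c hc => hB a (Finset.mem_insert_of_mem ha) c (Finset.mem_insert_of_mem hc))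
    intro a ha
    have hab : a ≠ b := by rintro rfl; exact hb ha
    exact lin_pow_dvd_of_dvd_pow_mul (hB a (Finset.mem_insert_of_mem ha) b
      (Finset.mem_insert_self _ _) hab) _ _ (h a (Finset.mem_insert_of_mem ha))

theorem top_zero {G : Finset (Fin ℓ → K)} (hG : ∀ a ∈ G, a ≠ 0)
    (hG2 : ∀ a ∈ G, ∀ b ∈ G, a ≠ b → LinearIndependent K ![a, b]) {p j : ℕ} (hp : ℓ ≤ p)
    (hj : j < wt G) {c : Amb K ℓ} (hc : c ∈ DD G) (hc' : c ∈ GP K ℓ p j) : c = 0 := by
  funext I
  by_cases hI : I.card = p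
  · have hIu : I = Finset.univ := by
      apply Finset.eq_univ_of_card
      rw [Fintype.card_fin]
      have : I.card ≤ ℓ := by simpa using Finset.card_le_univ I
      omega
    subst hIu
    have hdvd : pl G ∣ c Finset.univ := by
      apply prod_dvd hG2
      intro a ha
      obtain ⟨i, hi⟩ : ∃ i, a i ≠ 0 := by
        by_contra hcon
        push Not at hcon
        exact hG a ha (funext hcon)
      have h1 := hc a ha (Finset.univ.erase i)
      rw [ctr_apply, Finset.sum_apply, Finset.sum_eq_single i] at h1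
      · simp only [Pi.smul_apply, ctr1_apply, Finset.mem_erase, ne_eq, not_true_eq_false,
          false_and, if_false] at h1
        rw [Finset.insert_erase (Finset.mem_univ i), smul_smul] at h1
        have h2 : a i * sg K i (Finset.univ.erase i) ≠ 0 := by
          apply mul_ne_zero hi
          intro h0
          have := sg_mul_self (K := K) i (Finset.univ.erase i)
          rw [h0, mul_zero] at this
          exact zero_ne_one this
        have h3 : c Finset.univ = C (a i * sg K i (Finset.univ.erase i))⁻¹ *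
            ((a i * sg K i (Finset.univ.erase i)) • c Finset.univ) := by
          rw [MvPolynomial.smul_eq_C_mul, ← mul_assoc, ← C_mul, inv_mul_cancel₀ h2, C_1, one_mul]
        rw [h3]
        exact Dvd.dvd.mul_left h1 _
      · intro k _ hk
        simp only [Pi.smul_apply, ctr1_apply]
        rw [if_pos (Finset.mem_erase.2 ⟨hk, Finset.mem_univ k⟩), smul_zero]
      · simp
    by_contra hne
    obtain ⟨k, hk⟩ := hdvd
    have h4 := hc'.2 Finset.univ
    have h5 : c Finset.univ = homogeneousComponent j (c Finset.univ) := (hc_of_homog h4).symm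
    rw [hk, hc_mul_lt (pl_isHomogeneous G) k hj] at h5
    rw [hk] at hne
    exact hne h5
  · exact hc'.1 I hI

theorem kill {G : Finset (Fin ℓ → K)} (hG : ∀ a ∈ G, a ≠ 0)
    (hG2 : ∀ a ∈ G, ∀ b ∈ G, a ≠ b → LinearIndependent K ![a, b]) {d : ℕ}
    {f : Fin d → Module.Dual K (Fin ℓ → K)} {y : Fin d → (Fin ℓ → K)} (h : DualFam d f y)
    (hf : ∀ k, ∀ a ∈ G, f k a = 0) {j : ℕ} (hj : j < wt G) (s : Finset (Fin d)) :
    ∀ (p : ℕ) (c : Amb K ℓ), ℓ ≤ p + s.card → c ∈ DD G → c ∈ GP K ℓ p j →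
      (∀ k ∈ s, ctr (y k) c = 0) → c = 0 := by
  induction s using Finset.induction_on with
  | empty =>
    intro p c hp hc hc' _
    exact top_zero hG hG2 (by simpa using hp) hj hc hc'
  | insert i s hi ih =>
    intro p c hp hc hc' hk
    rw [Finset.card_insert_of_notMem hi] at hp
    have h1 : wdg (vec (f i)) c = 0 := by
      apply ih (p + 1) _ (by omega) (wdg_DD (hf i) hc) (wdg_GP _ hc')
      intro k hks
      have := ctr_wdg_vec (f i) (y k) c
      rw [hk k (Finset.mem_insert_of_mem hks), map_zero, add_zero,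
        h.zero i k (by rintro rfl; exact hi hks), zero_smul] at this
      exact this
    have h2 := ctr_wdg_vec (f i) (y i) c
    rw [h1, hk i (Finset.mem_insert_self _ _), map_zero, map_zero, add_zero, h.one i,
      one_smul] at h2
    exact h2.symm

/-- The Euler characteristic of `DD G / W G` vanishes in total degree at least `|G|`. -/
theorem EF_quot {G : Finset (Fin ℓ → K)} (hG : ∀ a ∈ G, a ≠ 0)
    (hG2 : ∀ a ∈ G, ∀ b ∈ G, a ≠ b → LinearIndependent K ![a, b]) (hne : G.Nonempty)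
    {m : ℕ} (hm : wt G ≤ m) :
    EF ((DD G).restrictScalars K) m = EF ((W G).restrictScalars K) m := by
  obtain ⟨d, f, y, h, hf, hL, hd⟩ := exists_dualFam (Submodule.span K (G : Set (Fin ℓ → K)))
  have hfG : ∀ k, ∀ a ∈ G, f k a = 0 := fun k a ha => hf k a (Submodule.subset_span ha)
  rw [EF_RdS h (fun i => stab_DD (h.ne i) (hfG i)) m Finset.univ,
    EF_RdS h (fun i => stab_W (h.ne i) (hfG i)) m Finset.univ]
  unfold EF
  apply Finset.sum_congr rfl
  rintro ⟨p, j⟩ hpj
  rw [Finset.HasAntidiagonal.mem_antidiagonal] at hpj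
  simp only at hpj ⊢
  congr 2
  unfold pc
  have : RdS ((DD G).restrictScalars K) h Finset.univ ⊓ GP K ℓ p j =
      RdS ((W G).restrictScalars K) h Finset.univ ⊓ GP K ℓ p j := by
    ext c
    rw [Submodule.mem_inf, Submodule.mem_inf, mem_RdS, mem_RdS]
    constructor
    · rintro ⟨⟨h1, h2⟩, h3⟩
      refine ⟨⟨?_, h2⟩, h3⟩
      show c ∈ W G
      by_cases hjr : wt G < j + Module.finrank K (Submodule.span K (G : Set (Fin ℓ → K)))
      · exact PP_all G.card G rfl hG j c h1 h3.2
          (fun I => mem_SA_of_inv h hL (fun k => (h2 k (Finset.mem_univ k)).2) I) hjr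
      · have hr : 0 < Module.finrank K (Submodule.span K (G : Set (Fin ℓ → K))) := by
          obtain ⟨a, ha⟩ := hne
          rw [Module.finrank_pos_iff_exists_ne_zero]
          refine ⟨⟨a, Submodule.subset_span ha⟩, ?_⟩
          intro h0
          exact hG a ha (congrArg Subtype.val h0)
        have : c = 0 := by
          apply kill hG hG2 h hfG (j := j) (by omega) Finset.univ p c _ h1 h3
            (fun k hk => (h2 k hk).1)
          rw [Finset.card_univ, Fintype.card_fin]
          omega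
        rw [this]
        exact Submodule.zero_mem _
    · rintro ⟨⟨h1, h2⟩, h3⟩
      exact ⟨⟨W_le_DD G h1, h2⟩, h3⟩
  rw [this]

end Pool.Agent.H3MA
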