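import Mathlib

set_option autoImplicit false

/-!
Operators on `Amb K ℓ = (Finset (Fin ℓ) → K[x])`, the polynomial multivector fields
(`c I` is the coefficient of the wedge of the partial derivatives indexed by `I`).
-/

namespace Pool.Agent.H3MA

open MvPolynomial

variable {K : Type*} [Field K] {ℓ : ℕ}

/-- The linear form with coefficient vector `a`. -/
noncomputable def lin (a : Fin ℓ → K) : MvPolynomial (Fin ℓ) K := ∑ m, C (a m) * X m

/-- `lin` as a linear map. -/
noncomputable def linL (K : Type*) [Field K] (ℓ : ℕ) :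
    (Fin ℓ → K) →ₗ[K] MvPolynomial (Fin ℓ) K where
  toFun a := lin a
  map_add' a b := by
    simp [lin, add_mul, Finset.sum_add_distrib]
  map_smul' t a := by
    simp [lin, Finset.smul_sum, mul_assoc, MvPolynomial.smul_eq_C_mul]

@[simp] theorem linL_apply (a : Fin ℓ → K) : linL K ℓ a = lin a := rfl

theorem lin_add (a b : Fin ℓ → K) : lin (a + b) = lin a + lin b := (linL K ℓ).map_add a b
theorem lin_sub (a b : Fin ℓ → K) : lin (a - b) = lin a - lin b := (linL K ℓ).map_sub a b
theorem lin_smul (t : K) (a : Fin ℓ → K) : lin (t • a) = t • lin a := (linL K ℓ).map_smul t a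
theorem lin_zero : lin (0 : Fin ℓ → K) = 0 := (linL K ℓ).map_zero

theorem lin_single (i : Fin ℓ) : lin (Pi.single i (1 : K)) = X i := by
  unfold lin
  rw [Finset.sum_eq_single i]
  · simp
  · intro b _ hb
    simp [hb]
  · simp

theorem lin_isHomogeneous (a : Fin ℓ → K) : (lin a).IsHomogeneous 1 := by
  unfold lin
  apply IsHomogeneous.sum
  intro i _
  have := (isHomogeneous_C (Fin ℓ) (a i)).mul (isHomogeneous_X K i)
  simpa using this

theorem coeff_lin (a : Fin ℓ → K) (i : Fin ℓ) :
    (lin a).coeff (Finsupp.single i 1) = a i := by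
  unfold lin
  rw [coeff_sum, Finset.sum_eq_single i]
  · simp
  · intro b _ hb
    rw [coeff_C_mul, coeff_X, if_neg, mul_zero]
    intro h
    exact hb (Finsupp.single_left_injective one_ne_zero h)
  · simp

theorem lin_ne_zero {a : Fin ℓ → K} (ha : a ≠ 0) : lin a ≠ 0 := by
  intro h
  apply ha
  funext i
  rw [← coeff_lin a i, h]
  simp

/-- Substitution on polynomials induced by an endomorphism of the space of linear forms. -/
noncomputable def rho (P : (Fin ℓ → K) →ₗ[K] (Fin ℓ → K)) :
    MvPolynomial (Fin ℓ) K →ₐ[K] MvPolynomial (Fin ℓ) K :=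
  aeval (fun i => lin (P (Pi.single i 1)))

theorem rho_X (P : (Fin ℓ → K) →ₗ[K] (Fin ℓ → K)) (i : Fin ℓ) :
    rho P (X i) = lin (P (Pi.single i 1)) := by
  simp [rho]

theorem rho_lin (P : (Fin ℓ → K) →ₗ[K] (Fin ℓ → K)) (a : Fin ℓ → K) :
    rho P (lin a) = lin (P a) := by
  have h : (rho P).toLinearMap ∘ₗ linL K ℓ = linL K ℓ ∘ₗ P := by
    apply (Pi.basisFun K (Fin ℓ)).ext
    intro i
    simp [Pi.basisFun_apply, lin_single, rho_X]
  exact congrArg (fun φ : (Fin ℓ → K) →ₗ[K] MvPolynomial (Fin ℓ) K => φ a) h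

theorem rho_comp (P Q : (Fin ℓ → K) →ₗ[K] (Fin ℓ → K)) (g : MvPolynomial (Fin ℓ) K) :
    rho P (rho Q g) = rho (P ∘ₗ Q) g := by
  have h : (rho P).comp (rho Q) = rho (P ∘ₗ Q) := by
    apply MvPolynomial.algHom_ext
    intro i
    simp [rho_X, rho_lin]
  exact congrArg (fun φ : MvPolynomial (Fin ℓ) K →ₐ[K] MvPolynomial (Fin ℓ) K => φ g) h

theorem rho_isHomogeneous (P : (Fin ℓ → K) →ₗ[K] (Fin ℓ → K)) {g : MvPolynomial (Fin ℓ) K}
    {n : ℕ} (hg : g.IsHomogeneous n) : (rho P g).IsHomogeneous n := by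
  have := hg.aeval (fun i => lin (P (Pi.single i 1))) (n := 1)
    (fun i => lin_isHomogeneous _)
  simpa [rho] using this

/-- The endomorphism `a ↦ a - f a • y` of the space of linear forms. -/
noncomputable def shear (f : Module.Dual K (Fin ℓ → K)) (y : Fin ℓ → K) :
    (Fin ℓ → K) →ₗ[K] (Fin ℓ → K) := LinearMap.id - (f.smulRight y)

theorem shear_apply (f : Module.Dual K (Fin ℓ → K)) (y a : Fin ℓ → K) :
    shear f y a = a - f a • y := by
  simp [shear]

theorem lin_dvd_sub_rho (f : Module.Dual K (Fin ℓ → K)) (y : Fin ℓ → K)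
    (g : MvPolynomial (Fin ℓ) K) : lin y ∣ g - rho (shear f y) g := by
  rw [← Ideal.mem_span_singleton, ← Ideal.Quotient.eq]
  have h : (Ideal.Quotient.mkₐ K (Ideal.span {lin y})).comp (rho (shear f y)) =
      Ideal.Quotient.mkₐ K (Ideal.span {lin y}) := by
    apply MvPolynomial.algHom_ext
    intro i
    simp only [AlgHom.comp_apply, rho_X, shear_apply, lin_sub, lin_smul, lin_single]
    rw [Ideal.Quotient.mkₐ_eq_mk, Ideal.Quotient.eq, sub_sub_cancel_left, neg_mem_iff,
      Ideal.mem_span_singleton]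
    exact Dvd.dvd.trans (dvd_refl _) (by
      rw [MvPolynomial.smul_eq_C_mul]; exact dvd_mul_left _ _)
  exact (congrArg (fun φ : MvPolynomial (Fin ℓ) K →ₐ[K] _ => φ g) h).symm

/-- The divided difference `(g - rho g) / lin y`. -/
noncomputable def dd (f : Module.Dual K (Fin ℓ → K)) (y : Fin ℓ → K)
    (g : MvPolynomial (Fin ℓ) K) : MvPolynomial (Fin ℓ) K :=
  (lin_dvd_sub_rho f y g).choose

theorem dd_spec (f : Module.Dual K (Fin ℓ → K)) (y : Fin ℓ → K)
    (g : MvPolynomial (Fin ℓ) K) : g - rho (shear f y) g = lin y * dd f y g :=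
  (lin_dvd_sub_rho f y g).choose_spec

theorem dd_unique {f : Module.Dual K (Fin ℓ → K)} {y : Fin ℓ → K} (hy : y ≠ 0)
    {g h : MvPolynomial (Fin ℓ) K} (H : g - rho (shear f y) g = lin y * h) :
    dd f y g = h := by
  have := dd_spec f y g
  rw [H] at this
  exact (mul_left_cancel₀ (lin_ne_zero hy) this).symm

theorem dd_add {f : Module.Dual K (Fin ℓ → K)} {y : Fin ℓ → K} (hy : y ≠ 0)
    (g h : MvPolynomial (Fin ℓ) K) : dd f y (g + h) = dd f y g + dd f y h := by
  apply dd_unique hy
  rw [mul_add, ← dd_spec, ← dd_spec, map_add]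
  ring

theorem dd_mul_fixed {f : Module.Dual K (Fin ℓ → K)} {y : Fin ℓ → K} (hy : y ≠ 0)
    {s : MvPolynomial (Fin ℓ) K} (hs : rho (shear f y) s = s)
    (g : MvPolynomial (Fin ℓ) K) : dd f y (s * g) = s * dd f y g := by
  apply dd_unique hy
  rw [map_mul, hs, mul_left_comm, ← dd_spec]
  ring

theorem rho_C (P : (Fin ℓ → K) →ₗ[K] (Fin ℓ → K)) (t : K) : rho P (C t) = C t := by
  simp [rho]

theorem dd_smul {f : Module.Dual K (Fin ℓ → K)} {y : Fin ℓ → K} (hy : y ≠ 0)
    (t : K) (g : MvPolynomial (Fin ℓ) K) : dd f y (t • g) = t • dd f y g := by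
  rw [MvPolynomial.smul_eq_C_mul, MvPolynomial.smul_eq_C_mul,
    dd_mul_fixed hy (rho_C _ t)]

theorem dd_zero {f : Module.Dual K (Fin ℓ → K)} {y : Fin ℓ → K} (hy : y ≠ 0) :
    dd f y (0 : MvPolynomial (Fin ℓ) K) = 0 := by
  apply dd_unique hy; simp

theorem dd_lin_mul {f : Module.Dual K (Fin ℓ → K)} {y : Fin ℓ → K} (hfy : f y = 1)
    (g : MvPolynomial (Fin ℓ) K) : dd f y (lin y * g) = g := by
  have hy : y ≠ 0 := by rintro rfl; simp at hfy
  apply dd_unique hy
  rw [map_mul, rho_lin, shear_apply, hfy]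
  simp [lin_zero]

theorem hc_mul {q : MvPolynomial (Fin ℓ) K} {e : ℕ} (hq : q.IsHomogeneous e)
    (g : MvPolynomial (Fin ℓ) K) (n : ℕ) :
    homogeneousComponent (n + e) (q * g) = q * homogeneousComponent n g := by
  conv_lhs => rw [← sum_homogeneousComponent g]
  rw [Finset.mul_sum, map_sum]
  have h : ∀ i ∈ Finset.range (g.totalDegree + 1),
      homogeneousComponent (n + e) (q * homogeneousComponent i g) =
        if i = n then q * homogeneousComponent n g else 0 := by
    intro i _
    rw [homogeneousComponent_of_mem (hq.mul (homogeneousComponent_isHomogeneous i g))]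
    by_cases hi : i = n
    · subst hi
      rw [if_pos (by omega), if_pos rfl]
    · rw [if_neg (by omega), if_neg hi]
  rw [Finset.sum_congr rfl h, Finset.sum_ite_eq']
  split_ifs with hn
  · rfl
  · rw [homogeneousComponent_eq_zero, mul_zero]
    simp only [Finset.mem_range, not_lt] at hn
    omega

theorem hc_mul_lt {q : MvPolynomial (Fin ℓ) K} {e : ℕ} (hq : q.IsHomogeneous e)
    (g : MvPolynomial (Fin ℓ) K) {n : ℕ} (hn : n < e) :
    homogeneousComponent n (q * g) = 0 := by
  conv_lhs => rw [← sum_homogeneousComponent g]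
  rw [Finset.mul_sum, map_sum]
  apply Finset.sum_eq_zero
  intro i _
  rw [homogeneousComponent_of_mem (hq.mul (homogeneousComponent_isHomogeneous i g)),
    if_neg (by omega)]

theorem hc_of_homog {g : MvPolynomial (Fin ℓ) K} {n : ℕ} (hg : g.IsHomogeneous n) :
    homogeneousComponent n g = g := by
  rw [homogeneousComponent_of_mem hg, if_pos rfl]

theorem hc_rho (P : (Fin ℓ → K) →ₗ[K] (Fin ℓ → K)) (g : MvPolynomial (Fin ℓ) K) (n : ℕ) :
    homogeneousComponent n (rho P g) = rho P (homogeneousComponent n g) := by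
  conv_lhs => rw [← sum_homogeneousComponent g]
  rw [map_sum, map_sum]
  have h : ∀ i ∈ Finset.range (g.totalDegree + 1),
      homogeneousComponent n (rho P (homogeneousComponent i g)) =
        if i = n then rho P (homogeneousComponent n g) else 0 := by
    intro i _
    rw [homogeneousComponent_of_mem (rho_isHomogeneous P (homogeneousComponent_isHomogeneous i g))]
    by_cases hi : i = n
    · subst hi
      simp
    · rw [if_neg (by omega), if_neg hi]
  rw [Finset.sum_congr rfl h, Finset.sum_ite_eq']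
  split_ifs with hn
  · rfl
  · rw [homogeneousComponent_eq_zero, map_zero]
    simp only [Finset.mem_range, not_lt] at hn
    omega

theorem dd_isHomogeneous {f : Module.Dual K (Fin ℓ → K)} {y : Fin ℓ → K} (hy : y ≠ 0)
    {g : MvPolynomial (Fin ℓ) K} {n : ℕ} (hg : g.IsHomogeneous (n + 1)) :
    (dd f y g).IsHomogeneous n := by
  have h1 : (g - rho (shear f y) g).IsHomogeneous (n + 1) := hg.sub (rho_isHomogeneous _ hg)
  rw [dd_spec] at h1
  have h2 : dd f y g = homogeneousComponent n (dd f y g) := by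
    apply mul_left_cancel₀ (lin_ne_zero hy)
    rw [← hc_mul (lin_isHomogeneous y), hc_of_homog h1]
  rw [h2]
  exact homogeneousComponent_isHomogeneous _ _

theorem dd_isHomogeneous_zero {f : Module.Dual K (Fin ℓ → K)} {y : Fin ℓ → K} (hy : y ≠ 0)
    {g : MvPolynomial (Fin ℓ) K} (hg : g.IsHomogeneous 0) : dd f y g = 0 := by
  apply dd_unique hy
  obtain ⟨t, rfl⟩ : ∃ t : K, g = C t := by
    refine ⟨g.coeff 0, ?_⟩
    rw [← homogeneousComponent_zero, hc_of_homog hg]
  rw [rho_C]; simp

/-- cancellation of a linear form by another one. -/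
theorem lin_dvd_of_dvd_mul {a y : Fin ℓ → K} (h : LinearIndependent K ![a, y])
    {g : MvPolynomial (Fin ℓ) K} (hg : lin a ∣ lin y * g) : lin a ∣ g := by
  -- a functional with `f a = 1`, `f y = 0`
  obtain ⟨f, hfa, hfy⟩ : ∃ f : Module.Dual K (Fin ℓ → K), f a = 1 ∧ f y = 0 := by
    have hy : y ≠ 0 := h.ne_zero 1
    have ha : a ∉ Submodule.span K {y} := by
      intro hmem
      obtain ⟨t, ht⟩ := Submodule.mem_span_singleton.1 hmem
      have := LinearIndependent.pair_iff.1 h (1 : K) (-t) (by rw [← ht]; simp)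
      exact one_ne_zero this.1
    obtain ⟨f, hf1, hf2⟩ := Submodule.exists_dual_map_eq_bot_of_notMem ha inferInstance
    refine ⟨(f a)⁻¹ • f, ?_, ?_⟩
    · simp [hf1]
    · have : f y = 0 := by
        have : f y ∈ Submodule.map f (Submodule.span K {y}) :=
          Submodule.mem_map_of_mem (Submodule.mem_span_singleton_self y)
        rw [hf2] at this
        simpa using this
      simp [this]
  obtain ⟨k, hk⟩ := hg
  have h1 := congrArg (rho (shear f a)) hk
  rw [map_mul, map_mul, rho_lin, rho_lin, shear_apply, shear_apply, hfa, hfy] at h1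
  simp only [zero_smul, sub_zero, one_smul, sub_self, lin_zero, zero_mul] at h1
  have h2 : rho (shear f a) g = 0 := by
    rcases mul_eq_zero.1 h1 with h3 | h3
    · exact absurd h3 (lin_ne_zero (h.ne_zero 1))
    · exact h3
  have h4 := dd_spec f a g
  rw [h2, sub_zero] at h4
  exact ⟨_, h4⟩

end Pool.Agent.H3MA
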