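import Pool.Agent.H3MA.Euler

set_option autoImplicit false

/-!
Additivity over flats and the final formula for the Euler characteristic.
-/

namespace Pool.Agent.H3MA

open MvPolynomial
open scoped Classical

set_option linter.unusedSectionVars false

variable {K : Type*} [Field K] {ℓ : ℕ} [Mult K ℓ]

/-- projection to exterior degree `p` -/
noncomputable def pcp (p : ℕ) (c : Amb K ℓ) : Amb K ℓ := fun I => if I.card = p then c I else 0

theorem pcp_add (p : ℕ) (c d : Amb K ℓ) : pcp p (c + d) = pcp p c + pcp p d := by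
  funext I; simp only [pcp, Pi.add_apply]; split_ifs <;> simp

theorem pcp_zero (p : ℕ) : pcp p (0 : Amb K ℓ) = 0 := by
  funext I; simp [pcp]

theorem pcp_smul (p : ℕ) (s : MvPolynomial (Fin ℓ) K) (c : Amb K ℓ) :
    pcp p (s • c) = s • pcp p c := by
  funext I; simp only [pcp, Pi.smul_apply]; split_ifs <;> simp

theorem ctr_pcp (p : ℕ) (a : Fin ℓ → K) (c : Amb K ℓ) (J : Finset (Fin ℓ)) :
    ctr a (pcp p c) J = if J.card + 1 = p then ctr a c J else 0 := by
  rw [ctr_apply, ctr_apply, Finset.sum_apply, Finset.sum_apply]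
  split_ifs with h
  · apply Finset.sum_congr rfl
    intro i _
    simp only [Pi.smul_apply, ctr1_apply]
    split_ifs with hi
    · rfl
    · rw [pcp, if_pos (by rw [Finset.card_insert_of_notMem hi]; exact h)]
  · apply Finset.sum_eq_zero
    intro i _
    simp only [Pi.smul_apply, ctr1_apply]
    split_ifs with hi
    · simp
    · rw [pcp, if_neg (by rw [Finset.card_insert_of_notMem hi]; exact h)]
      simp

theorem pcp_DD {G : Finset (Fin ℓ → K)} (p : ℕ) {c : Amb K ℓ} (hc : c ∈ DD G) :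
    pcp p c ∈ DD G := by
  intro a ha J
  rw [ctr_pcp]
  split_ifs
  · exact hc a ha J
  · exact dvd_zero _

theorem pcp_U {A : Finset (Fin ℓ → K)} {𝒢 : Finset (Finset (Fin ℓ → K))} (p : ℕ)
    {c : Amb K ℓ} (hc : c ∈ U A 𝒢) : pcp p c ∈ U A 𝒢 := by
  refine U_stable (pcp p) (pcp_zero p) (pcp_add p) ?_ c hc
  intro G hG c hc
  obtain ⟨d, hd, rfl⟩ := mem_M.1 hc
  apply M_le_U hG
  exact mem_M.2 ⟨pcp p d, pcp_DD p hd, by rw [pcp_smul]⟩

/-- graded submodules -/
def Gr (N : Submodule K (Amb K ℓ)) : Prop := ∀ p j, ∀ c ∈ N, pcp p (hcA j c) ∈ N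

theorem proj_GP (p j : ℕ) (c : Amb K ℓ) : pcp p (hcA j c) ∈ GP K ℓ p j := by
  refine ⟨fun I hI => by simp [pcp, hI], fun I => ?_⟩
  simp only [pcp, hcA]
  split_ifs
  · exact homogeneousComponent_isHomogeneous _ _
  · exact isHomogeneous_zero _ _ _

theorem proj_self {p j : ℕ} {c : Amb K ℓ} (hc : c ∈ GP K ℓ p j) : pcp p (hcA j c) = c := by
  funext I
  simp only [pcp, hcA]
  split_ifs with h
  · exact hc_of_homog (hc.2 I)
  · exact (hc.1 I h).symm

theorem Gr_DD (G : Finset (Fin ℓ → K)) : Gr ((DD G).restrictScalars K) :=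
  fun p j _ hc => pcp_DD p (hcA_DD j hc)

theorem Gr_U (A : Finset (Fin ℓ → K)) (𝒢 : Finset (Finset (Fin ℓ → K))) :
    Gr ((U A 𝒢).restrictScalars K) :=
  fun p j _ hc => pcp_U p (hcA_U j hc)

/-- scaling -/
noncomputable def sc (q : MvPolynomial (Fin ℓ) K) (N : Submodule K (Amb K ℓ)) :
    Submodule K (Amb K ℓ) :=
  N.map ((LinearMap.lsmul (MvPolynomial (Fin ℓ) K) (Amb K ℓ) q).restrictScalars K)

theorem mem_sc {q : MvPolynomial (Fin ℓ) K} {N : Submodule K (Amb K ℓ)} {c : Amb K ℓ} :
    c ∈ sc q N ↔ ∃ d ∈ N, q • d = c := by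
  simp [sc, Submodule.mem_map]

theorem proj_smul {q : MvPolynomial (Fin ℓ) K} {e : ℕ} (hq : q.IsHomogeneous e)
    (p j : ℕ) (d : Amb K ℓ) : pcp p (hcA (j + e) (q • d)) = q • pcp p (hcA j d) := by
  rw [hcA_smul hq, pcp_smul]

theorem Gr_sc {q : MvPolynomial (Fin ℓ) K} {e : ℕ} (hq : q.IsHomogeneous e)
    {N : Submodule K (Amb K ℓ)} (hN : Gr N) : Gr (sc q N) := by
  intro p j c hc
  obtain ⟨d, hd, rfl⟩ := mem_sc.1 hc
  rcases lt_or_ge j e with h | h
  · rw [hcA_smul_lt hq h, pcp_zero]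
    exact Submodule.zero_mem _
  · obtain ⟨m, rfl⟩ := Nat.exists_eq_add_of_le' h
    rw [proj_smul hq]
    exact mem_sc.2 ⟨_, hN p m d hd, rfl⟩

theorem sc_injective {q : MvPolynomial (Fin ℓ) K} (hq : q ≠ 0) :
    Function.Injective
      ((LinearMap.lsmul (MvPolynomial (Fin ℓ) K) (Amb K ℓ) q).restrictScalars K) := by
  intro c d h
  funext I
  have := congrFun h I
  simp only [LinearMap.coe_restrictScalars, LinearMap.lsmul_apply, Pi.smul_apply,
    smul_eq_mul] at this
  exact mul_left_cancel₀ hq this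

theorem pc_sc {q : MvPolynomial (Fin ℓ) K} {e : ℕ} (hq : q.IsHomogeneous e) (hq0 : q ≠ 0)
    {N : Submodule K (Amb K ℓ)} (hN : Gr N) (p j : ℕ) : pc (sc q N) p (j + e) = pc N p j := by
  unfold pc
  have h : sc q N ⊓ GP K ℓ p (j + e) = (N ⊓ GP K ℓ p j).map
      ((LinearMap.lsmul (MvPolynomial (Fin ℓ) K) (Amb K ℓ) q).restrictScalars K) := by
    ext c
    rw [Submodule.mem_inf, mem_sc, Submodule.mem_map]
    constructor
    · rintro ⟨⟨d, hd, rfl⟩, h2⟩
      refine ⟨pcp p (hcA j d), ⟨hN p j d hd, proj_GP p j d⟩, ?_⟩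
      show q • pcp p (hcA j d) = q • d
      rw [← proj_smul hq, proj_self h2]
    · rintro ⟨d, ⟨hd1, hd2⟩, rfl⟩
      refine ⟨⟨d, hd1, rfl⟩, ?_⟩
      refine ⟨fun I hI => ?_, fun I => ?_⟩
      · show q • d I = 0
        rw [hd2.1 I hI, smul_zero]
      · have := hq.mul (hd2.2 I)
        rw [add_comm] at this
        exact this
  rw [h]
  exact (Submodule.equivMapOfInjective _ (sc_injective hq0) _).finrank_eq.symm

theorem pc_sc_lt {q : MvPolynomial (Fin ℓ) K} {e : ℕ} (hq : q.IsHomogeneous e)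
    {N : Submodule K (Amb K ℓ)} (p : ℕ) {j : ℕ} (hj : j < e) : pc (sc q N) p j = 0 := by
  unfold pc
  have h : sc q N ⊓ GP K ℓ p j = ⊥ := by
    rw [eq_bot_iff]
    intro c hc
    rw [Submodule.mem_inf, mem_sc] at hc
    obtain ⟨⟨d, _, rfl⟩, h2⟩ := hc
    have := proj_self h2
    rw [hcA_smul_lt hq hj, pcp_zero] at this
    rw [← this]
    exact Submodule.zero_mem _
  rw [h]
  exact finrank_bot K _

theorem EF_sc {q : MvPolynomial (Fin ℓ) K} {e : ℕ} (hq : q.IsHomogeneous e) (hq0 : q ≠ 0)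
    {N : Submodule K (Amb K ℓ)} (hN : Gr N) (m : ℕ) : EF (sc q N) (m + e) = EF N m := by
  unfold EF
  rw [Finset.Nat.sum_antidiagonal_eq_sum_range_succ
      (f := fun p j => (-1 : ℤ) ^ p * (pc (sc q N) p j : ℤ)),
    Finset.Nat.sum_antidiagonal_eq_sum_range_succ
      (f := fun p j => (-1 : ℤ) ^ p * (pc N p j : ℤ))]
  symm
  have hsub : Finset.range (m.succ) ⊆ Finset.range ((m + e).succ) := by
    intro x hx
    rw [Finset.mem_range] at hx ⊢
    omega
  rw [← Finset.sum_subset hsub]
  · apply Finset.sum_congr rfl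
    intro p hp
    rw [Finset.mem_range] at hp
    have : m + e - p = (m - p) + e := by omega
    rw [this, pc_sc hq hq0 hN]
  · intro p hp hp'
    rw [Finset.mem_range] at hp hp'
    rw [pc_sc_lt hq p (by omega)]
    simp

theorem EF_sup_add_inf {N₁ N₂ : Submodule K (Amb K ℓ)} (h₁ : Gr N₁) (h₂ : Gr N₂) (m : ℕ) :
    EF (N₁ ⊔ N₂) m + EF (N₁ ⊓ N₂) m = EF N₁ m + EF N₂ m := by
  unfold EF
  rw [← Finset.sum_add_distrib, ← Finset.sum_add_distrib]
  apply Finset.sum_congr rfl
  rintro ⟨p, j⟩ _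
  simp only
  rw [← mul_add, ← mul_add]
  congr 1
  unfold pc
  have e1 : (N₁ ⊔ N₂) ⊓ GP K ℓ p j = (N₁ ⊓ GP K ℓ p j) ⊔ (N₂ ⊓ GP K ℓ p j) := by
    apply le_antisymm
    · intro c hc
      rw [Submodule.mem_inf, Submodule.mem_sup] at hc
      obtain ⟨⟨u, hu, v, hv, rfl⟩, hc2⟩ := hc
      rw [← proj_self hc2, hcA_add, pcp_add]
      exact Submodule.add_mem_sup ⟨h₁ p j u hu, proj_GP p j u⟩ ⟨h₂ p j v hv, proj_GP p j v⟩
    · exact sup_le (inf_le_inf_right _ le_sup_left) (inf_le_inf_right _ le_sup_right)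
  have e2 : (N₁ ⊓ N₂) ⊓ GP K ℓ p j = (N₁ ⊓ GP K ℓ p j) ⊓ (N₂ ⊓ GP K ℓ p j) := by
    rw [inf_inf_distrib_right]
  rw [e1, e2]
  exact_mod_cast Submodule.finrank_sup_add_finrank_inf_eq (N₁ ⊓ GP K ℓ p j) (N₂ ⊓ GP K ℓ p j)

/-! ### the full module -/

theorem stab_top {f : Module.Dual K (Fin ℓ → K)} {y : Fin ℓ → K} :
    Stab (⊤ : Submodule K (Amb K ℓ)) f y :=
  ⟨fun _ _ => trivial, fun _ _ => trivial, fun _ _ => trivial, fun _ _ => trivial⟩

theorem W_empty : W (∅ : Finset (Fin ℓ → K)) = ⊥ := by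
  rw [eq_bot_iff]
  apply U_le
  intro G hG
  rw [mem_PC] at hG
  exact absurd (Finset.subset_empty.1 hG.1.1) hG.2

theorem EF_top (m : ℕ) : EF (⊤ : Submodule K (Amb K ℓ)) m = if m = 0 then 1 else 0 := by
  let f : Fin ℓ → Module.Dual K (Fin ℓ → K) := fun k => LinearMap.proj k
  let y : Fin ℓ → (Fin ℓ → K) := fun k => Pi.single k 1
  have h : DualFam ℓ f y := by
    refine ⟨fun k => by simp [f, y], fun k l hkl => by simp [f, y, hkl]⟩
  have hL : ∀ x : Fin ℓ → K, x - ∑ k, f k x • y k ∈ (⊥ : Submodule K (Fin ℓ → K)) := by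
    intro x
    rw [Submodule.mem_bot, sub_eq_zero]
    funext i
    simp [f, y, Finset.sum_apply, Pi.single_apply]
  rw [EF_RdS h (fun i => stab_top) m Finset.univ]
  have hzero : ∀ p j : ℕ, (p, j) ≠ (0, 0) →
      pc (RdS (⊤ : Submodule K (Amb K ℓ)) h Finset.univ) p j = 0 := by
    intro p j hpj
    unfold pc
    have : RdS (⊤ : Submodule K (Amb K ℓ)) h Finset.univ ⊓ GP K ℓ p j = ⊥ := by
      rw [eq_bot_iff]
      intro c hc
      rw [Submodule.mem_inf, mem_RdS] at hc
      obtain ⟨⟨_, h2⟩, h3⟩ := hc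
      rw [Submodule.mem_bot]
      rcases Nat.eq_zero_or_pos j with hj | hj
      · -- `p > 0`
        have hp : 0 < p := by
          rcases Nat.eq_zero_or_pos p with hp | hp
          · exact absurd (by rw [hp, hj]) hpj
          · exact hp
        funext I
        by_cases hI : I.card = p
        · obtain ⟨i, hi⟩ : I.Nonempty := Finset.card_pos.1 (by omega)
          have h4 := congrFun (h2 i (Finset.mem_univ i)).1 (I.erase i)
          rw [ctr_apply, Finset.sum_apply, Finset.sum_eq_single i] at h4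
          · simp only [Pi.smul_apply, ctr1_apply, Finset.mem_erase, ne_eq, not_true_eq_false,
              false_and, if_false, Pi.zero_apply] at h4
            rw [Finset.insert_erase hi, smul_smul] at h4
            have h5 : y i i * sg K i (I.erase i) ≠ 0 := by
              apply mul_ne_zero
              · simp [y]
              · intro h0
                have := sg_mul_self (K := K) i (I.erase i)
                rw [h0, mul_zero] at this
                exact zero_ne_one this
            exact (smul_eq_zero.1 h4).resolve_left h5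
          · intro k _ hk
            simp [y, Pi.single_apply, hk]
          · simp
        · exact h3.1 I hI
      · funext I
        exact eq_zero_of_SA_bot (mem_SA_of_inv h hL
          (fun k => (h2 k (Finset.mem_univ k)).2) I) hj (h3.2 I)
    rw [this]
    exact finrank_bot K _
  have hone : pc (RdS (⊤ : Submodule K (Amb K ℓ)) h Finset.univ) 0 0 = 1 := by
    unfold pc
    have e : RdS (⊤ : Submodule K (Amb K ℓ)) h Finset.univ ⊓ GP K ℓ 0 0 = GP K ℓ 0 0 := by
      rw [inf_eq_right]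
      intro c hc
      rw [mem_RdS]
      exact ⟨trivial, fun k _ => ⟨ctr_GP_zero _ hc, ddA_GP_zero (h.ne k) hc⟩⟩
    rw [e, finrank_eq_one_iff']
    refine ⟨⟨fun I => if I = ∅ then 1 else 0, ?_, ?_⟩, ?_, ?_⟩
    · intro I hI
      show (if I = ∅ then (1 : MvPolynomial (Fin ℓ) K) else 0) = 0
      rw [if_neg]
      rintro rfl
      simp at hI
    · intro I
      simp only
      split_ifs
      · exact isHomogeneous_one _ _
      · exact isHomogeneous_zero _ _ _
    · intro h0
      have := congrFun (congrArg Subtype.val h0) ∅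
      simp at this
    · rintro ⟨c, hc1, hc2⟩
      refine ⟨(c ∅).coeff 0, ?_⟩
      apply Subtype.ext
      funext I
      show (c ∅).coeff 0 • (if I = ∅ then (1 : MvPolynomial (Fin ℓ) K) else 0) = c I
      split_ifs with hI
      · subst hI
        rw [MvPolynomial.smul_eq_C_mul, mul_one, ← homogeneousComponent_zero]
        exact hc_of_homog (hc2 ∅)
      · rw [smul_zero]
        symm
        apply hc1
        intro h0
        exact hI (Finset.card_eq_zero.1 h0)
  unfold EF
  rcases m with _ | m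
  · rw [Finset.Nat.antidiagonal_zero, Finset.sum_singleton]
    simp [hone]
  · rw [if_neg (by omega)]
    apply Finset.sum_eq_zero
    rintro ⟨p, j⟩ hpj
    rw [Finset.HasAntidiagonal.mem_antidiagonal] at hpj
    rw [hzero p j (by
      intro h0
      simp only [Prod.mk.injEq] at h0
      simp only at hpj
      omega)]
    simp

/-! ### the induction over down-closed families -/

theorem Cl_self (A : Finset (Fin ℓ → K)) : Cl A A := ⟨Finset.Subset.refl _, fun _ ha _ => ha⟩

theorem Cl_empty {A : Finset (Fin ℓ → K)} (hA : ∀ a ∈ A, a ≠ 0) : Cl A ∅ := by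
  refine ⟨Finset.empty_subset _, fun a ha hs => ?_⟩
  rw [Finset.coe_empty, Submodule.span_empty, Submodule.mem_bot] at hs
  exact absurd hs (hA a ha)

theorem M_restrict (A G : Finset (Fin ℓ → K)) :
    (M A G).restrictScalars K = sc (pl (A \ G)) ((DD G).restrictScalars K) := by
  ext c
  rw [mem_sc]
  exact mem_M

theorem DD_empty : (DD (∅ : Finset (Fin ℓ → K))).restrictScalars K = ⊤ := by
  rw [eq_top_iff]
  intro c _ a ha
  simp at ha

theorem EF_U {A : Finset (Fin ℓ → K)} (hA : ∀ a ∈ A, a ≠ 0)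
    (hA2 : ∀ a ∈ A, ∀ b ∈ A, a ≠ b → LinearIndependent K ![a, b]) {m : ℕ} (hm : wt A ≤ m)
    (n : ℕ) : ∀ 𝒢 : Finset (Finset (Fin ℓ → K)), 𝒢.card = n → ∅ ∈ 𝒢 → (∀ G ∈ 𝒢, Cl A G) →
      (∀ G ∈ 𝒢, ∀ H, Cl A H → H ⊆ G → H ∈ 𝒢) →
      EF ((U A 𝒢).restrictScalars K) m = if m = wt A then 1 else 0 := by
  induction n with
  | zero =>
    intro 𝒢 h0 h1
    rw [Finset.card_eq_zero] at h0
    rw [h0] at h1
    simp at h1
  | succ n ih =>
    intro 𝒢 hcard hmem hcl hdown
    obtain ⟨G, hG, hmax⟩ := Finset.exists_max_image 𝒢 Finset.card ⟨∅, hmem⟩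
    by_cases hGe : G = ∅
    · -- only the empty set
      subst hGe
      have h𝒢 : 𝒢 = {∅} := by
        ext H
        rw [Finset.mem_singleton]
        constructor
        · intro hH
          have := hmax H hH
          rw [Finset.card_empty] at this
          exact Finset.card_eq_zero.1 (by omega)
        · rintro rfl; exact hG
      have hU : U A 𝒢 = M A ∅ := by
        apply le_antisymm
        · apply U_le
          intro H hH
          rw [h𝒢, Finset.mem_singleton] at hH
          rw [hH]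
        · exact M_le_U hG
      rw [hU, M_restrict, DD_empty]
      obtain ⟨k, rfl⟩ := Nat.exists_eq_add_of_le' hm
      have hs : (A \ ∅ : Finset (Fin ℓ → K)) = A := Finset.sdiff_empty
      have hGt : Gr (⊤ : Submodule K (Amb K ℓ)) := fun _ _ _ _ => Submodule.mem_top
      rw [hs, EF_sc (pl_isHomogeneous A) (pl_ne_zero hA) hGt, EF_top]
      by_cases hk : k = 0
      · rw [if_pos hk, if_pos (by omega)]
      · rw [if_neg hk, if_neg (by omega)]
    · have hGc := hcl G hG
      have hnot : ∀ H ∈ 𝒢.erase G, ¬ G ⊆ H := by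
        intro H hH hGH
        obtain ⟨h1, h2⟩ := Finset.mem_erase.1 hH
        exact h1 (Finset.eq_of_subset_of_card_le hGH (hmax H h2)).symm
      have hU : (U A 𝒢).restrictScalars K =
          (M A G).restrictScalars K ⊔ (U A (𝒢.erase G)).restrictScalars K := by
        apply le_antisymm
        · intro c hc
          have := U_insert_le hG hc
          rw [Submodule.mem_sup] at this
          obtain ⟨u, hu, v, hv, rfl⟩ := this
          exact Submodule.add_mem_sup hu hv
        · apply sup_le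
          · intro c hc; exact M_le_U hG hc
          · intro c hc; exact U_mono (Finset.erase_subset _ _) hc
      have hI : (M A G).restrictScalars K ⊓ (U A (𝒢.erase G)).restrictScalars K =
          sc (pl (A \ G)) ((W G).restrictScalars K) := by
        ext c
        rw [Submodule.mem_inf, M_restrict, mem_sc, mem_sc]
        constructor
        · rintro ⟨⟨d, _, rfl⟩, h2⟩
          exact ⟨d, inter_lemma hA hGc (fun H hH =>
            ⟨hcl H (Finset.mem_of_mem_erase hH), hnot H hH⟩) h2, rfl⟩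
        · rintro ⟨d, hd, rfl⟩
          refine ⟨⟨d, W_le_DD G hd, rfl⟩, ?_⟩
          apply smul_W_le hGc _ hd
          intro H hH
          rw [Finset.mem_erase]
          exact ⟨(mem_PC.1 hH).2, hdown G hG H (Cl_trans hGc (mem_PC.1 hH).1) (PC_sub hH)⟩
      have hgr1 : Gr ((M A G).restrictScalars K) := by
        rw [M_restrict]; exact Gr_sc (pl_isHomogeneous _) (Gr_DD G)
      have hadd := EF_sup_add_inf hgr1 (Gr_U A (𝒢.erase G)) m
      rw [← hU, hI, M_restrict] at hadd
      have hq0 : pl (A \ G) ≠ 0 := pl_ne_zero fun a ha => hA a (Finset.mem_sdiff.1 ha).1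
      have hcd : wt (A \ G) + wt G = wt A := wt_sdiff_add hGc.1
      obtain ⟨k, hk⟩ : ∃ k, m = k + wt (A \ G) := ⟨m - wt (A \ G), by omega⟩
      have hcancel : EF (sc (pl (A \ G)) ((DD G).restrictScalars K)) m =
          EF (sc (pl (A \ G)) ((W G).restrictScalars K)) m := by
        have hGW : Gr ((W G).restrictScalars K) := Gr_U G (PC G)
        rw [hk, EF_sc (pl_isHomogeneous _) hq0 (Gr_DD G),
          EF_sc (pl_isHomogeneous _) hq0 hGW]
        apply EF_quot (fun a ha => hA a (hGc.1 ha))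
          (fun a ha b hb => hA2 a (hGc.1 ha) b (hGc.1 hb)) (Finset.nonempty_iff_ne_empty.2 hGe)
        omega
      have hih := ih (𝒢.erase G) (by rw [Finset.card_erase_of_mem hG, hcard]; rfl)
        (Finset.mem_erase.2 ⟨fun h => hGe h.symm, hmem⟩)
        (fun H hH => hcl H (Finset.mem_of_mem_erase hH)) (by
          intro G' hG' H hH hHG'
          rw [Finset.mem_erase]
          obtain ⟨h1, h2⟩ := Finset.mem_erase.1 hG'
          refine ⟨?_, hdown G' h2 H hH hHG'⟩
          rintro rfl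
          exact hnot G' hG' hHG')
      rw [hih] at hadd
      linarith

/-- The Euler characteristic of the logarithmic multivector fields. -/
theorem EF_DD {A : Finset (Fin ℓ → K)} (hA : ∀ a ∈ A, a ≠ 0)
    (hA2 : ∀ a ∈ A, ∀ b ∈ A, a ≠ b → LinearIndependent K ![a, b]) {m : ℕ} (hm : wt A ≤ m) :
    EF ((DD A).restrictScalars K) m = if m = wt A then 1 else 0 := by
  let 𝒢 : Finset (Finset (Fin ℓ → K)) := A.powerset.filter (fun G => Cl A G)
  have hmem : ∀ G, G ∈ 𝒢 ↔ Cl A G := by
    intro G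
    simp only [𝒢, Finset.mem_filter, Finset.mem_powerset]
    exact ⟨fun h => h.2, fun h => ⟨h.1, h⟩⟩
  have hU : U A 𝒢 = DD A := by
    apply le_antisymm
    · exact U_le fun _ _ => M_le_DD
    · intro c hc
      apply M_le_U ((hmem A).2 (Cl_self A))
      exact mem_M.2 ⟨c, hc, by simp [pl]⟩
  rw [← hU]
  exact EF_U hA hA2 hm 𝒢.card 𝒢 rfl ((hmem _).2 (Cl_empty hA)) (fun G hG => (hmem G).1 hG)
    (fun _ _ H hH _ => (hmem H).2 hH)

end Pool.Agent.H3MA
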